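import Pool.Agent.N181.Ab.GalB

/-!
# Algebras generated in degree one: products of eigenspaces
-/

set_option autoImplicit false

open Polynomial

namespace Pool.Agent.N181.Ab

open Pool.Agent.N181.Mod

section Alg

variable {K : Type*} [Field K] {B : Type*} [Ring B] [Algebra K B]

/-- The eigenspace in degree one. -/
def U (F : B →ₐ[K] B) (N : Submodule K B) (a : K) : Submodule K B :=
  N ⊓ Module.End.eigenspace F.toLinearMap a

/-- The products of eigenspaces. -/
def HL (F : B →ₐ[K] B) (N : Submodule K B) (l : List K) : Submodule K B :=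
  (l.map (U F N)).prod

variable {F : B →ₐ[K] B} {N : Submodule K B}

lemma mem_U {a : K} {x : B} : x ∈ U F N a ↔ x ∈ N ∧ F x = a • x := by
  rw [U, Submodule.mem_inf, Module.End.mem_eigenspace_iff]
  rfl

lemma HL_nil : HL F N [] = 1 := rfl

lemma HL_cons (a : K) (l : List K) : HL F N (a :: l) = U F N a * HL F N l := by
  rw [HL, List.map_cons, List.prod_cons]
  rfl

lemma HL_append (l l' : List K) : HL F N (l ++ l') = HL F N l * HL F N l' := by
  rw [HL, List.map_append, List.prod_append]
  rfl

lemma HL_perm (hN : ∀ x ∈ N, ∀ y ∈ N, x * y = -(y * x)) {l l' : List K} (h : l.Perm l') :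
    HL F N l = HL F N l' := by
  have hcomm : ∀ a b : K, U F N a * U F N b ≤ U F N b * U F N a := by
    intro a b
    rw [Submodule.mul_le]
    intro x hx y hy
    rw [hN x hx.1 y hy.1]
    exact Submodule.neg_mem _ (Submodule.mul_mem_mul hy hx)
  induction h with
  | nil => rfl
  | cons a _ ih => rw [HL_cons, HL_cons, ih]
  | swap a b l =>
    rw [HL_cons, HL_cons, HL_cons, HL_cons, ← mul_assoc, ← mul_assoc,
      le_antisymm (hcomm a b) (hcomm b a)]
  | trans _ _ ih ih' => rw [ih, ih']

lemma HL_apply {Ψ : B →ₐ[K] B} {g : K → K} {l : List K}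
    (h : ∀ a ∈ l, ∀ x ∈ U F N a, Ψ x = g a • x) :
    ∀ x ∈ HL F N l, Ψ x = (l.map g).prod • x := by
  induction l with
  | nil =>
    intro x hx
    rw [HL_nil, Submodule.mem_one] at hx
    obtain ⟨c, rfl⟩ := hx
    rw [AlgHom.commutes, List.map_nil, List.prod_nil, one_smul]
  | cons a l ih =>
    intro x hx
    rw [HL_cons] at hx
    have ih' := ih fun b hb => h b (List.mem_cons_of_mem _ hb)
    refine Submodule.mul_induction_on hx ?_ ?_
    · intro y hy z hz
      rw [map_mul, h a List.mem_cons_self y hy, ih' z hz, List.map_cons, List.prod_cons,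
        smul_mul_smul_comm]
    · intro y z hy hz
      rw [map_add, hy, hz, smul_add]

/-- The lists of length `i` with entries in `S`. -/
def Ls (S : Finset K) (i : ℕ) (l : List K) : Prop := l.length = i ∧ ∀ a ∈ l, a ∈ S

lemma pow_le_HL {S : Finset K} (hN : N ≤ ⨆ (a : K) (_ : a ∈ S), U F N a) (i : ℕ) :
    N ^ i ≤ ⨆ (l : List K) (_ : Ls S i l), HL F N l := by
  induction i with
  | zero =>
    rw [pow_zero]
    refine le_iSup₂_of_le [] ⟨rfl, by simp⟩ ?_
    rw [HL_nil]
  | succ i ih =>
    rw [pow_succ']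
    refine (mul_le_mul' hN ih).trans ?_
    simp only [Submodule.iSup_mul, Submodule.mul_iSup]
    refine iSup₂_le fun l hl => iSup₂_le fun a ha => ?_
    refine le_iSup₂_of_le (a :: l) ⟨by rw [List.length_cons, hl.1], ?_⟩ ?_
    · intro b hb
      rcases List.mem_cons.1 hb with rfl | hb
      · exact ha
      · exact hl.2 b hb
    · rw [HL_cons]

end Alg

section Lin

variable {K : Type*} [Field K] {V : Type*} [AddCommGroup V] [Module K V]

/-- The part of a sum of subspaces of eigenspaces which is in one eigenspace. -/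
lemma mem_of_eig {ι : Type*} {ψ : Module.End K V} {P : ι → Prop} {M : ι → Submodule K V}
    {μ : ι → K} (hM : ∀ i, P i → ∀ x ∈ M i, ψ x = μ i • x) {x : V}
    (hx : x ∈ ⨆ (i : ι) (_ : P i), M i) {c : K} (hc : ψ x = c • x) :
    x ∈ ⨆ (i : ι) (_ : P i ∧ μ i = c), M i := by
  have h1 : ∃ y ∈ ⨆ (i : ι) (_ : P i ∧ μ i = c), M i,
      ∃ z ∈ ⨆ (ν : K) (_ : ν ≠ c), ψ.eigenspace ν, x = y + z := by
    clear hc
    induction hx using Submodule.iSup_induction' with
    | mem i x hx =>
      by_cases hP : P i
      · rw [iSup_pos hP] at hx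
        by_cases hi : μ i = c
        · exact ⟨x, Submodule.mem_iSup_of_mem i (Submodule.mem_iSup_of_mem ⟨hP, hi⟩ hx), 0,
            Submodule.zero_mem _, by rw [add_zero]⟩
        · refine ⟨0, Submodule.zero_mem _, x, Submodule.mem_iSup_of_mem (μ i)
            (Submodule.mem_iSup_of_mem hi ?_), by rw [zero_add]⟩
          rw [Module.End.mem_eigenspace_iff]
          exact hM i hP x hx
      · rw [iSup_neg hP, Submodule.mem_bot] at hx
        exact ⟨0, Submodule.zero_mem _, 0, Submodule.zero_mem _, by rw [hx, add_zero]⟩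
    | zero => exact ⟨0, Submodule.zero_mem _, 0, Submodule.zero_mem _, by rw [add_zero]⟩
    | add x x' _ _ h h' =>
      obtain ⟨y, hy, z, hz, rfl⟩ := h
      obtain ⟨y', hy', z', hz', rfl⟩ := h'
      exact ⟨y + y', Submodule.add_mem _ hy hy', z + z', Submodule.add_mem _ hz hz', by abel⟩
  obtain ⟨y, hy, z, hz, rfl⟩ := h1
  have hyc : ψ y = c • y := by
    clear hc hz hx
    induction hy using Submodule.iSup_induction' with
    | mem i x hx =>
      by_cases hP : P i ∧ μ i = c
      · rw [iSup_pos hP] at hx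
        rw [hM i hP.1 x hx, hP.2]
      · rw [iSup_neg hP, Submodule.mem_bot] at hx
        rw [hx, map_zero, smul_zero]
    | zero => rw [map_zero, smul_zero]
    | add x x' _ _ h h' => rw [map_add, h, h', smul_add]
  have hzc : z ∈ ψ.eigenspace c := by
    rw [Module.End.mem_eigenspace_iff]
    rw [map_add, smul_add, hyc] at hc
    exact add_left_cancel hc
  have h0 : z = 0 := by
    have h2 := (ψ.eigenspaces_iSupIndep c).le_bot ⟨hzc, hz⟩
    exact (Submodule.mem_bot _).1 h2
  rw [h0, add_zero]
  exact hy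

end Lin

section Bal

variable {K : Type*} [Field K] {σ : K →+* ℂ} {Q : ℕ} {S : Finset K}

lemma Bal.perm {l l' : List K} (h : Bal Q l) (hp : l.Perm l') : Bal Q l' :=
  hp.symm.trans (h.trans (hp.map _))

lemma bal_nil : Bal Q ([] : List K) := List.Perm.refl _

lemma Bal.append {l l' : List K} (h : Bal Q l) (h' : Bal Q l') : Bal Q (l ++ l') := by
  rw [Bal, List.map_append]
  exact List.Perm.append h h'

lemma WSet.bal_pair [CharZero K] (h : WSet σ Q S) {a : K} (ha : a ∈ S) : Bal Q [a, du Q a] := by
  rw [Bal, List.map_cons, List.map_cons, List.map_nil, h.du_du ha]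
  exact List.Perm.swap _ _ _

lemma Bal.cancel {l l' : List K} (h : Bal Q (l ++ l')) (h' : Bal Q l') : Bal Q l := by
  rw [Bal, List.map_append] at h
  have h1 : (l ++ l').Perm (l.map (du Q) ++ l') := h.trans (List.Perm.append_left _ h'.symm)
  exact (List.perm_append_right_iff l').1 h1

open Classical in
/-- **The structure of the balanced lists.** -/
theorem WSet.bal_cases [CharZero K] (h : WSet σ Q S) {r : K} (hr : ∀ a ∈ S, du Q a = a → a = r)
    {l : List K} (hl : ∀ a ∈ l, a ∈ S) (hb : Bal Q l) :
    l = [] ∨ l = [r] ∨ ∃ a ∈ S, ∃ l', l.Perm ([a, du Q a] ++ l') ∧ Bal Q l' := by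
  by_cases hall : ∀ a ∈ l, du Q a = a
  · have hr' : ∀ a ∈ l, a = r := fun a ha => hr a (hl a ha) (hall a ha)
    match l, hr', hl, hb, hall with
    | [], _, _, _, _ => exact Or.inl rfl
    | [a], hr', _, _, _ => exact Or.inr (Or.inl (by rw [hr' a List.mem_cons_self]))
    | a :: b :: l', hr', hl, hb, hall =>
      refine Or.inr (Or.inr ⟨a, hl a List.mem_cons_self, l', ?_, ?_⟩)
      · rw [hall a List.mem_cons_self, hr' a List.mem_cons_self,
          hr' b (List.mem_cons_of_mem _ List.mem_cons_self)]
        exact List.Perm.refl _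
      · rw [Bal]
        have : l'.map (du Q) = l' := by
          conv_rhs => rw [← List.map_id l']
          exact List.map_congr_left fun x hx =>
            hall x (List.mem_cons_of_mem _ (List.mem_cons_of_mem _ hx))
        rw [this]
  · push Not at hall
    obtain ⟨a, ha, hne⟩ := hall
    refine Or.inr (Or.inr ⟨a, hl a ha, (l.erase a).erase (du Q a), ?_, ?_⟩)
    · have h1 : du Q a ∈ l := by
        rw [hb.mem_iff]
        exact List.mem_map_of_mem ha
      have h2 : du Q a ∈ l.erase a := (List.mem_erase_of_ne hne).2 h1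
      exact (List.perm_cons_erase ha).trans (List.Perm.cons a (List.perm_cons_erase h2))
    · have h1 : du Q a ∈ l := by
        rw [hb.mem_iff]
        exact List.mem_map_of_mem ha
      have h2 : du Q a ∈ l.erase a := (List.mem_erase_of_ne hne).2 h1
      have h3 : l.Perm ((l.erase a).erase (du Q a) ++ [a, du Q a]) :=
        ((List.perm_cons_erase ha).trans (List.Perm.cons a (List.perm_cons_erase h2))).trans
          (List.perm_append_comm (l₁ := [a, du Q a]))
      exact (hb.perm h3).cancel (h.bal_pair (hl a ha))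

end Bal

end Pool.Agent.N181.Ab
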