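import Pool.Agent.N181.Ab.KMab

/-!
# The data for an abelian variety
-/

set_option autoImplicit false

open CategoryTheory AlgebraicGeometry Polynomial TensorProduct

universe u v

namespace Pool.Agent.N181.Ab

open Pool.Agent.H914 Pool.Agent.H914.VarClass Pool.Agent.H914.VarClass.Obj
  Pool.Agent.H914.WeilCohomology Pool.Agent.H281R3.HT Pool.Agent.W534 Pool.Agent.TH132.P
  Pool.Agent.R908 Pool.Agent.N181.Mod

section Lin

variable {K : Type*} [Field K] [CharZero K] [IsAlgClosed K] {V : Type*} [AddCommGroup V]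
  [Module K V] [FiniteDimensional K V]

omit [CharZero K] [IsAlgClosed K] in
/-- The roots of the characteristic polynomial of the restriction. -/
lemma mem_roots_restrict {F : Module.End K V} {N : Submodule K V} (hF : ∀ x ∈ N, F x ∈ N)
    {a : K} : a ∈ (F.restrict hF).charpoly.roots ↔ ∃ w ∈ N, w ≠ 0 ∧ F w = a • w := by
  rw [mem_roots (LinearMap.charpoly_monic _).ne_zero,
    ← Module.End.hasEigenvalue_iff_isRoot_charpoly]
  constructor
  · intro h
    obtain ⟨w, hw⟩ := h.exists_hasEigenvector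
    refine ⟨w, w.2, fun h0 => hw.2 (Subtype.ext h0), ?_⟩
    exact congrArg Subtype.val hw.apply_eq_smul
  · rintro ⟨w, hw, hw0, hFw⟩
    refine Module.End.hasEigenvalue_of_hasEigenvector (x := ⟨w, hw⟩) ⟨?_, ?_⟩
    · rw [Module.End.mem_eigenspace_iff]
      exact Subtype.ext hFw
    · intro h0
      exact hw0 (congrArg Subtype.val h0)

open Classical in
/-- A semisimple operator is diagonalisable. -/
lemma ss_top {F : Module.End K V} {N : Submodule K V} (hF : ∀ x ∈ N, F x ∈ N)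
    (hss : R908.SemisimpleOn F N) : N ≤ ⨆ (a : K) (_ : a ∈ (F.restrict hF).charpoly.roots.toFinset),
      N ⊓ Module.End.eigenspace F a := by
  obtain ⟨f, hf, hfN⟩ := hss
  have h0 : aeval (F.restrict hF) f = 0 := by
    ext x
    rw [aeval_restrict_apply, hfN _ x.2]
    rfl
  have hs := Module.End.isSemisimple_of_squarefree_aeval_eq_zero hf h0
  have htop : ⨆ a, Module.End.eigenspace (F.restrict hF) a = ⊤ := by
    rw [← Module.End.iSup_maxGenEigenspace_eq_top (F.restrict hF)]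
    exact iSup_congr fun a => (hs.isFinitelySemisimple.maxGenEigenspace_eq_eigenspace a).symm
  intro x hx
  have hx' : (⟨x, hx⟩ : N) ∈ ⨆ a, Module.End.eigenspace (F.restrict hF) a := by rw [htop]; trivial
  refine Submodule.iSup_induction (fun a => Module.End.eigenspace (F.restrict hF) a)
    (motive := fun y : N => (y : V) ∈ ⨆ (a : K)
      (_ : a ∈ (F.restrict hF).charpoly.roots.toFinset), N ⊓ Module.End.eigenspace F a) hx' ?_
    (Submodule.zero_mem _) (fun _ _ => Submodule.add_mem _)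
  intro a y hy
  by_cases hy0 : y = 0
  · rw [hy0]; exact Submodule.zero_mem _
  · have hFy : F (y : V) = a • (y : V) :=
      congrArg Subtype.val (Module.End.mem_eigenspace_iff.1 hy)
    refine Submodule.mem_iSup_of_mem a (Submodule.mem_iSup_of_mem ?_ ⟨y.2, ?_⟩)
    · rw [Multiset.mem_toFinset, mem_roots_restrict]
      exact ⟨y, y.2, fun h => hy0 (Subtype.ext h), hFy⟩
    · exact Module.End.mem_eigenspace_iff.2 hFy

omit [CharZero K] [IsAlgClosed K] in
/-- A common exponent for the roots of unity in a finite set. -/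
lemma exists_exponent (T : Finset K) : ∃ M : ℕ, 0 < M ∧ ∀ ζ ∈ T, (∃ n, 0 < n ∧ ζ ^ n = 1) →
    ζ ^ M = 1 := by
  classical
  induction T using Finset.induction_on with
  | empty => exact ⟨1, one_pos, by simp⟩
  | insert a T _ ih =>
    obtain ⟨M, hM, h⟩ := ih
    by_cases ha : ∃ n, 0 < n ∧ a ^ n = 1
    · obtain ⟨n, hn, han⟩ := ha
      refine ⟨M * n, Nat.mul_pos hM hn, fun ζ hζ hroot => ?_⟩
      rcases Finset.mem_insert.1 hζ with rfl | hζ
      · rw [mul_comm, pow_mul, han, one_pow]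
      · rw [pow_mul, h ζ hζ hroot, one_pow]
    · refine ⟨M, hM, fun ζ hζ hroot => ?_⟩
      rcases Finset.mem_insert.1 hζ with rfl | hζ
      · exact absurd hroot ha
      · exact h ζ hζ hroot

omit [CharZero K] [IsAlgClosed K] [FiniteDimensional K V] in
lemma pow_eig {F : Module.End K V} {a : K} {x : V} (h : F x = a • x) (n : ℕ) :
    (F ^ n) x = a ^ n • x := by
  induction n with
  | zero => rw [pow_zero, pow_zero, one_smul]; rfl
  | succ n ih => rw [pow_succ', Module.End.mul_apply, ih, map_smul, h, smul_smul, pow_succ]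

end Lin

variable {k : Type u} [Field k] {𝒱 : VarClass k} {ops : CycleOps 𝒱}
  {W : WeilCohomology.{u, v} ops} {A : 𝒱.Obj} {m : A.prod A ⟶ A} {σ : W.K →+* ℂ}

/-- The endomorphism `f + c`. -/
noncomputable def addC (m : A.prod A ⟶ A) (f : A ⟶ A) : ℕ → (A ⟶ A)
  | 0 => f
  | c + 1 => lift (addC m f c) (𝟙 A) ≫ m

lemma addC_apply (hA : IsAbelianLike W A m) (f : A ⟶ A) (c : ℕ) {x : W.H A}
    (hx : x ∈ W.gr A 1) : W.map (addC m f c) x = W.map f x + (c : W.K) • x := by
  induction c with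
  | zero => rw [addC, Nat.cast_zero, zero_smul, add_zero]
  | succ c ih =>
    rw [addC, W.map_comp, hA.add x hx, map_add, ← W.map_comp, ← W.map_comp, Obj.lift_fst,
      Obj.lift_snd, ih, W.map_id, Nat.cast_succ, add_smul, one_smul, add_assoc]

/-- The characteristic polynomial of an algebraic operator on the first cohomology is rational. -/
lemma trace_one_rational (hA : IsAbelianLike W A m) {ψ : Module.End W.K (W.H A)}
    (hψ : ROp W A 0 ψ) (hF : ∀ x ∈ W.gr A 1, ψ x ∈ W.gr A 1) (n : ℕ) :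
    ∃ q : ℚ, LinearMap.trace W.K (W.gr A 1) ((ψ.restrict hF) ^ n) = (q : W.K) := by
  have hpow : ∀ v ∈ W.gr A 1, (ψ ^ n) v ∈ W.gr A 1 :=
    Module.End.pow_apply_mem_of_forall_mem n hF
  obtain ⟨q, hq⟩ := rop_str _ (rop_mul0 (rop_pow hψ n) (rop_proj_ab hA 1))
  refine ⟨-q, ?_⟩
  rw [Rat.cast_neg, ← hq, Module.End.pow_restrict n hF hpow]
  have hval : ∀ v, (par (W.isInternal A) * (ψ ^ n * proj (W.isInternal A) 1)) v =
      -((ψ ^ n) (proj (W.isInternal A) 1 v)) := by
    intro v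
    rw [Module.End.mul_apply, Module.End.mul_apply, par,
      scal_apply _ _ (hpow _ (proj_mem _ 1 v)), pow_one, neg_one_smul]
  have hall : ∀ v, (par (W.isInternal A) * (ψ ^ n * proj (W.isInternal A) 1)) v ∈
      W.gr A 1 := by
    intro v
    rw [hval]
    exact Submodule.neg_mem _ (hpow _ (proj_mem _ 1 v))
  rw [← LinearMap.trace_restrict_eq_of_forall_mem (W.gr A 1) _ hall, ← map_neg]
  congr 1
  ext v
  rw [LinearMap.neg_apply, Submodule.coe_neg]
  change (ψ ^ n) (v : W.H A) = -((par (W.isInternal A) * (ψ ^ n * proj (W.isInternal A) 1))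
    (v : W.H A))
  rw [hval, proj_same _ v.2, neg_neg]

variable {p : ℕ} {Φ : FrobSystem W p} {D : A.Cycles}

open Classical in
/-- **The data exist.** -/
theorem exists_data (hp : 1 < p) [IsAlgClosed W.K] (hRH : ∀ Z : 𝒱.Obj, RiemannHyp Φ σ Z)
    (hA : IsAbelian Φ A m D) : ∃ (F Ψ : W.H A →ₐ[W.K] W.H A) (S : Finset W.K) (Q c : ℕ)
      (r : W.K), AbData W A σ F Ψ (W.cl A D) S Q c r := by
  have hAL := hA.abelianLike
  have hF1 : ∀ x ∈ W.gr A 1, frobAll Φ A x ∈ W.gr A 1 := fun x hx => W.map_mem _ hx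
  obtain ⟨s₀, hs₀, hD₀⟩ := Φ.cyc (hA.divisor)
  set q₁ : W.K := (p : W.K) ^ Φ.e A with hq₁
  have hp0 : (p : W.K) ≠ 0 := Nat.cast_ne_zero.2 (by omega)
  have hq₁0 : q₁ ≠ 0 := pow_ne_zero _ hp0
  set S₁ : Finset W.K := ((frobAll Φ A).restrict hF1).charpoly.roots.toFinset with hS₁
  obtain ⟨M, hM, hMroot⟩ := exists_exponent (S₁.image fun b => b ^ 2 / q₁)
  set s : ℕ := s₀ * (2 * M) with hs
  have hspos : 0 < s := Nat.mul_pos hs₀ (by omega)
  set F : W.H A →ₐ[W.K] W.H A := W.map (W534.iter (Φ.Fr A) s) with hF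
  have hFpow : F.toLinearMap = frobAll Φ A ^ s := map_iter_pow (Φ.Fr A) s
  have hFN : ∀ x ∈ W.gr A 1, F.toLinearMap x ∈ W.gr A 1 := fun x hx => W.map_mem _ hx
  set S : Finset W.K := (F.toLinearMap.restrict hFN).charpoly.roots.toFinset with hS
  set Q : ℕ := card Φ A s with hQ
  have hQcast : (Q : W.K) = (p : W.K) ^ (Φ.e A * s) := by
    rw [hQ, card, Nat.cast_pow]
  have hQ0 : (Q : W.K) ≠ 0 := by rw [hQcast]; exact pow_ne_zero _ hp0
  have hmemS : ∀ a, a ∈ S ↔ ∃ w ∈ W.gr A 1, w ≠ 0 ∧ F w = a • w := by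
    intro a
    rw [hS, Multiset.mem_toFinset, mem_roots_restrict]
    rfl
  have hwset : WSet σ Q S := by
    refine ⟨card_pos Φ s, ?_, ?_⟩
    · obtain ⟨χ, hχ0, hχ⟩ := charpoly_rational (F.toLinearMap.restrict hFN)
        (trace_one_rational hAL (rop_map (W534.iter (Φ.Fr A) s)) hFN)
      refine ⟨χ, hχ0, fun a => ?_⟩
      rw [hS, Multiset.mem_toFinset, mem_roots (LinearMap.charpoly_monic _).ne_zero, ← hχ,
        IsRoot.def, eval_map_algebraMap]
    · intro a ha
      obtain ⟨w, hw, hw0, hFw⟩ := (hmemS a).1 ha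
      have h1 := norm_eig Φ (hRH A) hspos hw hw0 (μ := a) hFw
      rw [pow_one] at h1
      exact h1
  have htop₁ := ss_top hF1 hA.semisimple
  have htop : W.gr A 1 ≤ ⨆ (a : W.K) (_ : a ∈ S), U F (W.gr A 1) a := by
    refine htop₁.trans (iSup₂_le fun b hb => ?_)
    intro x hx
    by_cases hx0 : x = 0
    · rw [hx0]; exact Submodule.zero_mem _
    have hFx : F x = b ^ s • x := by
      have h1 := pow_eig (Module.End.mem_eigenspace_iff.1 hx.2) s
      rw [← hFpow] at h1
      exact h1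
    refine Submodule.mem_iSup_of_mem (b ^ s) (Submodule.mem_iSup_of_mem ?_
      (mem_U.2 ⟨hx.1, hFx⟩))
    exact (hmemS _).2 ⟨x, hx.1, hx0, hFx⟩
  have hD : W.map (W534.iter (Φ.Fr A) s) (W.cl A D) = (Q : W.K) • W.cl A D := by
    have h1 : (frobAll Φ A ^ s₀) (W.cl A D) = ((p : W.K) ^ (Φ.e A * s₀ * 1)) • W.cl A D := by
      have e1 : (W.map (W534.iter (Φ.Fr A) s₀)).toLinearMap = frobAll Φ A ^ s₀ :=
        map_iter_pow (Φ.Fr A) s₀
      rw [← e1]
      exact hD₀
    have h2 := pow_eig h1 (2 * M)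
    rw [← pow_mul, ← hs, ← hFpow, ← pow_mul, mul_one, mul_assoc, ← hs, ← hQcast] at h2
    exact h2
  obtain ⟨c, hc⟩ := exists_generic S (2 * A.dim)
  refine ⟨F, W.map (addC m (W534.iter (Φ.Fr A) s) c), S, Q, c, (q₁ ^ M) ^ s₀, ?_⟩
  refine
    { wset := hwset
      gen := hc
      real := ?_
      top := htop
      ggen := hAL.gen
      psi := fun x hx => addC_apply hAL _ c hx
      psi_rop := rop_map _
      proj_rop := rop_proj_ab hAL
      xi := W.cl_mem hA.divisor
      xi_eig := hD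
      lef := hA.lefschetz
      pair := ?_ }
  · intro a ha hdu
    obtain ⟨w, hw, hw0, hFw⟩ := (hmemS a).1 ha
    have h1 := mem_of_eig (ψ := F.toLinearMap) (P := fun b => b ∈ S₁)
      (M := fun b => W.gr A 1 ⊓ Module.End.eigenspace (frobAll Φ A) b) (μ := fun b => b ^ s)
      (fun b _ x hx => by
        have h1 := pow_eig (Module.End.mem_eigenspace_iff.1 hx.2) s
        rw [← hFpow] at h1
        exact h1) (htop₁ hw) hFw
    obtain ⟨b, hb, hbs⟩ : ∃ b ∈ S₁, b ^ s = a := by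
      by_contra hcon
      push Not at hcon
      apply hw0
      rw [← Submodule.mem_bot (R := W.K)]
      refine (iSup₂_le fun b hb => ?_ : (⨆ (b : W.K) (_ : b ∈ S₁ ∧ b ^ s = a),
        W.gr A 1 ⊓ Module.End.eigenspace (frobAll Φ A) b) ≤ ⊥) h1
      exact absurd hb.2 (hcon b hb.1)
    have ha0 := hwset.ne ha
    have ha2 : a ^ 2 = (Q : W.K) := by
      rw [du, div_eq_iff ha0] at hdu
      rw [hdu, pow_two]
    have h2 : (b ^ 2 / q₁) ^ s = 1 := by
      rw [div_pow, ← pow_mul, mul_comm 2 s, pow_mul, hbs, ha2, hQcast, hq₁, ← pow_mul, div_self]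
      exact pow_ne_zero _ hp0
    have h3 := hMroot (b ^ 2 / q₁) (Finset.mem_image.2 ⟨b, hb, rfl⟩) ⟨s, hspos, h2⟩
    rw [div_pow, div_eq_one_iff_eq (pow_ne_zero _ hq₁0), ← pow_mul] at h3
    rw [← hbs, hs, mul_comm s₀, pow_mul, h3]
  · intro a ha x hx y hy
    obtain ⟨hx1, hx2⟩ := mem_U.1 hx
    obtain ⟨hy1, hy2⟩ := mem_U.1 hy
    refine ext_pair hA hspos hQ0 hD (α := a) (β := du Q a) ?_ hx1 hx2 hy1 hy2
    rw [du, mul_div_cancel₀ _ (hwset.ne ha)]

end Pool.Agent.N181.Ab
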