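import Pool.Agent.N181.Ab.Pair

/-!
# Balanced classes on an abelian variety
-/

set_option autoImplicit false

open CategoryTheory AlgebraicGeometry Polynomial TensorProduct

universe u v

namespace Pool.Agent.N181.Ab

open Pool.Agent.H914 Pool.Agent.H914.VarClass Pool.Agent.H914.VarClass.Obj
  Pool.Agent.H914.WeilCohomology Pool.Agent.H281R3.HT Pool.Agent.W534 Pool.Agent.TH132.P
  Pool.Agent.R908 Pool.Agent.N181.Mod

variable {k : Type u} [Field k] {𝒱 : VarClass k} {ops : CycleOps 𝒱}

/-- The data which are used. -/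
structure AbData (W : WeilCohomology.{u, v} ops) (A : 𝒱.Obj) (σ : W.K →+* ℂ)
    (F Ψ : W.H A →ₐ[W.K] W.H A) (ξ : W.H A) (S : Finset W.K) (Q c : ℕ) (r : W.K) : Prop where
  wset : WSet σ Q S
  gen : Gen S (2 * A.dim) c
  real : ∀ a ∈ S, du Q a = a → a = r
  top : W.gr A 1 ≤ ⨆ (a : W.K) (_ : a ∈ S), U F (W.gr A 1) a
  ggen : ∀ i, W.gr A i ≤ W.gr A 1 ^ i
  psi : ∀ x ∈ W.gr A 1, Ψ x = F x + (c : W.K) • x
  psi_rop : ROp W A 0 Ψ.toLinearMap
  proj_rop : ∀ i, ROp W A 0 (proj (W.isInternal A) i)
  xi : ξ ∈ W.gr A 2
  xi_eig : F ξ = (Q : W.K) • ξ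
  lef : HardLef (W.gr A) A.dim (LinearMap.mulLeft W.K ξ)
  pair : ∀ a ∈ S, ∀ x ∈ U F (W.gr A 1) a, ∀ y ∈ U F (W.gr A 1) (du Q a),
    ext W x y ∈ spanCycles W (A.prod A) (1 : ℕ)

variable {W : WeilCohomology.{u, v} ops} {A : 𝒱.Obj} {σ : W.K →+* ℂ}
  {F Ψ : W.H A →ₐ[W.K] W.H A} {ξ : W.H A} {S : Finset W.K} {Q c : ℕ} {r : W.K}

lemma anti_one (x : W.H A) (hx : x ∈ W.gr A 1) (y : W.H A) (hy : y ∈ W.gr A 1) :
    x * y = -(y * x) := by
  rw [W.comm hx hy, mul_one, pow_one, neg_one_smul]

lemma HL_gr (F : W.H A →ₐ[W.K] W.H A) (l : List W.K) :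
    HL F (W.gr A 1) l ≤ W.gr A l.length := by
  induction l with
  | nil =>
    rw [HL_nil]
    intro x hx
    rw [Submodule.mem_one] at hx
    obtain ⟨c, rfl⟩ := hx
    rw [Algebra.algebraMap_eq_smul_one]
    exact Submodule.smul_mem _ _ (W.one_mem A)
  | cons a l ih =>
    rw [HL_cons, Submodule.mul_le]
    intro x hx y hy
    rw [List.length_cons, add_comm]
    exact W.mul_mem hx.1 (ih hy)

lemma ext_mul_left {x y : W.H A} {i : ℕ} (_hx : x ∈ W.gr A (2 * i)) (z : W.H A) :
    ext W (x * y) z = W.map (fst A A) x * ext W y z := by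
  change W.map (fst A A) (x * y) * W.map (snd A A) z = _ * (W.map (fst A A) y * _)
  rw [map_mul, mul_assoc]

lemma ext_mul_right {x y : W.H A} {i : ℕ} (hx : x ∈ W.gr A (2 * i)) (z : W.H A) :
    ext W z (x * y) = W.map (snd A A) x * ext W z y := by
  change W.map (fst A A) z * W.map (snd A A) (x * y) = _ * (W.map (fst A A) z * _)
  rw [map_mul, ← mul_assoc, ← mul_assoc, W.even_comm (W.map_mem (snd A A) hx)]

lemma diag_ext (x y : W.H A) : W.map (diag A) (ext W x y) = x * y := by
  have e1 : diag A ≫ fst A A = 𝟙 A := Obj.lift_fst _ _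
  have e2 : diag A ≫ snd A A = 𝟙 A := Obj.lift_snd _ _
  change W.map (diag A) (W.map (fst A A) x * W.map (snd A A) y) = _
  rw [map_mul, ← W.map_comp, ← W.map_comp, e1, e2, W.map_id, W.map_id]

namespace AbData

variable (h : AbData W A σ F Ψ ξ S Q c r)
include h

/-- Products of dual eigenvectors are algebraic. -/
lemma pair_mul {a : W.K} (ha : a ∈ S) {z : W.H A}
    (hz : z ∈ U F (W.gr A 1) a * U F (W.gr A 1) (du Q a)) : z ∈ spanCycles W A (1 : ℕ) := by
  refine Submodule.mul_induction_on hz ?_ ?_
  · intro x hx y hy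
    rw [← diag_ext]
    exact (sysA W).map (diag A) (h.pair a ha x hx y hy)
  · intro x y hx hy
    exact Submodule.add_mem _ hx hy

/-- **External products of balanced classes are algebraic.** -/
theorem ext_bal (n : ℕ) : ∀ l l' : List W.K, l.length + l'.length = n → Even n →
    (∀ a ∈ l, a ∈ S) → (∀ a ∈ l', a ∈ S) → Bal Q l → Bal Q l' →
    ∀ x ∈ HL F (W.gr A 1) l, ∀ y ∈ HL F (W.gr A 1) l',
      ext W x y ∈ spanCycles W (A.prod A) (n / 2 : ℕ) := by
  induction n using Nat.strong_induction_on with
  | _ n ih =>
    intro l l' hn hev hl hl' hb hb' x hx y hy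
    rcases h.wset.bal_cases h.real hl hb with rfl | rfl | ⟨a, ha, l₂, hp, hb₂⟩
    · rcases h.wset.bal_cases h.real hl' hb' with rfl | rfl | ⟨a', ha', l₂', hp', hb₂'⟩
      · rw [List.length_nil] at hn
        subst hn
        rw [HL_nil, Submodule.mem_one] at hx hy
        obtain ⟨s, rfl⟩ := hx
        obtain ⟨t, rfl⟩ := hy
        change W.map (fst A A) (algebraMap _ _ s) * W.map (snd A A) (algebraMap _ _ t) ∈ _
        rw [AlgHom.commutes, AlgHom.commutes, ← map_mul, Algebra.algebraMap_eq_smul_one]
        exact Submodule.smul_mem _ _ (Submodule.subset_span ⟨0, rfl,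
          (A.prod A).V.fundCycle, (A.prod A).V.fundCycle_mem, W.cl_fund _⟩)
      · simp only [List.length_nil, List.length_cons] at hn
        exfalso
        rw [← hn] at hev
        exact absurd hev (by decide)
      · have hlen := hp'.length_eq
        simp only [List.length_append, List.length_cons, List.length_nil] at hlen hn
        have hl₂ : ∀ b ∈ l₂', b ∈ S := fun b hb => hl' b (hp'.mem_iff.2
          (List.mem_append_right _ hb))
        rw [HL_perm anti_one hp', HL_append, HL_cons, HL_cons, HL_nil, mul_one] at hy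
        refine Submodule.mul_induction_on hy ?_ ?_
        · intro z hz y hy
          have hz' := h.pair_mul ha' hz
          rw [ext_mul_right (i := 1) (H914.span_gr hz')]
          have h1 := ih (n - 2) (by omega) [] l₂' (by simp only [List.length_nil]; omega)
            (by rw [Nat.even_sub (by omega)]; simp [hev]) (by simp) hl₂ bal_nil hb₂' x hx y hy
          have h2 := (sysA W).mul ((sysA W).map (snd A A) hz') h1
          rwa [show 1 + (n - 2) / 2 = n / 2 by omega] at h2
        · intro y y' h1 h2
          change W.map (fst A A) x * W.map (snd A A) (y + y') ∈ _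
          rw [map_add, mul_add]
          exact Submodule.add_mem _ h1 h2
    · rcases h.wset.bal_cases h.real hl' hb' with rfl | rfl | ⟨a', ha', l₂', hp', hb₂'⟩
      · simp only [List.length_nil, List.length_cons] at hn
        exfalso
        rw [← hn] at hev
        exact absurd hev (by decide)
      · simp only [List.length_nil, List.length_cons] at hn
        subst hn
        rw [HL_cons, HL_nil, mul_one] at hx hy
        have hr := hl r List.mem_cons_self
        have hdr : du Q r = r := by
          have h1 : ([r] : List W.K).Perm [du Q r] := hb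
          exact (List.singleton_perm_singleton.1 h1).symm
        exact h.pair r hr x hx y (by rw [hdr]; exact hy)
      · have hlen := hp'.length_eq
        simp only [List.length_append, List.length_cons, List.length_nil] at hlen hn
        have hl₂ : ∀ b ∈ l₂', b ∈ S := fun b hb => hl' b (hp'.mem_iff.2
          (List.mem_append_right _ hb))
        rw [HL_perm anti_one hp', HL_append, HL_cons, HL_cons, HL_nil, mul_one] at hy
        refine Submodule.mul_induction_on hy ?_ ?_
        · intro z hz y hy
          have hz' := h.pair_mul ha' hz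
          rw [ext_mul_right (i := 1) (H914.span_gr hz')]
          have h1 := ih (n - 2) (by omega) [r] l₂' (by
              simp only [List.length_cons, List.length_nil]; omega)
            (by rw [Nat.even_sub (by omega)]; simp [hev]) hl hl₂ hb hb₂' x hx y hy
          have h2 := (sysA W).mul ((sysA W).map (snd A A) hz') h1
          rwa [show 1 + (n - 2) / 2 = n / 2 by omega] at h2
        · intro y y' h1 h2
          change W.map (fst A A) x * W.map (snd A A) (y + y') ∈ _
          rw [map_add, mul_add]
          exact Submodule.add_mem _ h1 h2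
    · have hlen := hp.length_eq
      simp only [List.length_append, List.length_cons, List.length_nil] at hlen hn
      have hl₂ : ∀ b ∈ l₂, b ∈ S := fun b hb => hl b (hp.mem_iff.2
        (List.mem_append_right _ hb))
      rw [HL_perm anti_one hp, HL_append, HL_cons, HL_cons, HL_nil, mul_one] at hx
      refine Submodule.mul_induction_on hx ?_ ?_
      · intro z hz x hx
        have hz' := h.pair_mul ha hz
        rw [ext_mul_left (i := 1) (H914.span_gr hz')]
        have h1 := ih (n - 2) (by omega) l₂ l' (by omega)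
          (by rw [Nat.even_sub (by omega)]; simp [hev]) hl₂ hl' hb₂ hb' x hx y hy
        have h2 := (sysA W).mul ((sysA W).map (fst A A) hz') h1
        rwa [show 1 + (n - 2) / 2 = n / 2 by omega] at h2
      · intro x x' h1 h2
        change W.map (fst A A) (x + x') * W.map (snd A A) y ∈ _
        rw [map_add, add_mul]
        exact Submodule.add_mem _ h1 h2

/-- The even balanced classes are algebraic. -/
theorem bal_alg {l : List W.K} (hev : Even l.length) (hl : ∀ a ∈ l, a ∈ S) (hb : Bal Q l) :
    HL F (W.gr A 1) l ≤ spanCycles W A (l.length / 2 : ℕ) := by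
  intro x hx
  have h1 := h.ext_bal l.length l [] (by simp) hev hl (by simp) hb bal_nil x hx 1
    (by rw [HL_nil, Submodule.mem_one]; exact ⟨1, map_one _⟩)
  have h2 := (sysA W).map (diag A) h1
  rw [diag_ext, mul_one] at h2
  exact h2

end AbData

end Pool.Agent.N181.Ab
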