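import Pool.Agent.R908.TAbDefs

/-!
# Abelian varieties over an algebraic closure of a finite field: definition
-/

set_option autoImplicit false

open CategoryTheory AlgebraicGeometry

universe u v

namespace Pool.Agent.N181.Ab

open Pool.Agent.H914 Pool.Agent.H914.VarClass Pool.Agent.H914.VarClass.Obj
  Pool.Agent.H914.WeilCohomology Pool.Agent.W534 Pool.Agent.R908

/-- The variety `A` has the known properties of an abelian variety over an algebraic closure of a
finite field, with the addition `m` and an ample divisor `D`:

* the cohomology is generated by `H^1(A)`, and `m^* x = pr_1^* x + pr_2^* x` for `x` in `H^1(A)`;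
* hard Lefschetz holds for `D`;
* Frobenius is semisimple on `H^1(A)` (Weil);
* for all `s > 0`, the `K`-linear endomorphisms of `H^1(A)` which commute with the `s`-th power of
  Frobenius are given by `K`-linear combinations of algebraic correspondences of degree `0`
  (Tate). -/
structure IsAbelian {k : Type u} [Field k] {𝒱 : VarClass k} {ops : CycleOps 𝒱}
    {W : WeilCohomology.{u, v} ops} {p : ℕ} (Φ : FrobSystem W p) (A : 𝒱.Obj)
    (m : A.prod A ⟶ A) (D : A.Cycles) : Prop where
  abelianLike : IsAbelianLike W A m
  divisor : A.IsCyc 1 D
  lefschetz : HardLefschetz W A D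
  semisimple : SemisimpleOn (frobAll Φ A) (W.gr A 1)
  tate : ∀ s, 0 < s → CommutantSpannedOn (frobAll Φ A ^ s) (W.gr A 1) (cycOps W A)

end Pool.Agent.N181.Ab
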