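import Pool.Agent.N181.Ab.Build
import Pool.Agent.N181.Mod.Final1

/-!
# The formula of Tate modulo two for abelian varieties and their products with all varieties
-/

set_option autoImplicit false

open CategoryTheory AlgebraicGeometry Polynomial TensorProduct

universe u v

namespace Pool.Agent.N181.Ab

open Pool.Agent.H914 Pool.Agent.H914.VarClass Pool.Agent.H914.VarClass.Obj
  Pool.Agent.H914.WeilCohomology Pool.Agent.H281R3.HT Pool.Agent.W534 Pool.Agent.TH132.P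
  Pool.Agent.R908 Pool.Agent.N181.Mod

variable {k : Type u} [Field k] {𝒱 : VarClass k} {ops : CycleOps 𝒱}
  {W : WeilCohomology.{u, v} ops} {p : ℕ}

lemma ks_of_isAbelian (Φ : FrobSystem W p) {σ : W.K →+* ℂ} [IsAlgClosed W.K] (hp : 1 < p)
    (hRH : ∀ Z : 𝒱.Obj, RiemannHyp Φ σ Z) {X : 𝒱.Obj} {m D} (hA : IsAbelian Φ X m D) :
    KS Φ 2 X := by
  obtain ⟨F, Ψ, S, Q, c, r, hd⟩ := exists_data hp hRH hA
  exact hd.ks Φ hp hRH

/-- **Abelian varieties.** -/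
theorem main2 (W : WeilCohomology.{u, v} ops) [IsAlgClosed W.K] (σ : W.K →+* ℂ) (p : ℕ)
    (hp : p.Prime) (Φ : FrobSystem W p) (hRH : ∀ Z : 𝒱.Obj, RiemannHyp Φ σ Z)
    (X : 𝒱.Obj) (hX : ProdOf (fun Z => ∃ m D, IsAbelian Φ Z m D) X) :
    TateMod Φ σ 2 X ∧ KunnethMod Φ σ 2 X := by
  have h : KS Φ 2 X := ks_of_prodOf (fun Z ⟨m, D, hA⟩ => ks_of_isAbelian Φ hp.one_lt hRH hA) hX
  exact ⟨tateMod_of_ks Φ hp.one_lt hRH h, kunnethMod_of_km Φ hp.one_lt hRH h.1⟩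

end Pool.Agent.N181.Ab
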