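import Pool.Agent.N181.Mod.LinA

/-!
# Products of translated Weil numbers
-/

set_option autoImplicit false

open Polynomial IntermediateField

namespace Pool.Agent.N181.Ab

open Pool.Agent.N181.Mod

/-- A real polynomial of odd degree has a root. -/
lemma exists_real_root {f : ℝ[X]} (hf : Odd f.natDegree) : ∃ r : ℝ, f.eval r = 0 := by
  have key : ∀ g : ℝ[X], Odd g.natDegree → 0 < g.leadingCoeff → ∃ r : ℝ, g.eval r = 0 := by
    intro g hg hpos
    have hdeg : 0 < g.degree := natDegree_pos_iff_degree_pos.1 hg.pos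
    have h1 := g.tendsto_atTop_of_leadingCoeff_nonneg hdeg hpos.le
    have hcd : (g.comp (-X)).natDegree = g.natDegree := by
      rw [natDegree_comp, natDegree_neg, natDegree_X, mul_one]
    have h2 := (g.comp (-X)).tendsto_atBot_of_leadingCoeff_nonpos
      (natDegree_pos_iff_degree_pos.1 (by rw [hcd]; exact hg.pos)) (by
        rw [leadingCoeff_comp (by rw [natDegree_neg, natDegree_X]; exact one_ne_zero),
          leadingCoeff_neg, leadingCoeff_X, hg.neg_one_pow]
        linarith)
    have h3 : Filter.Tendsto (fun x => g.eval x) Filter.atBot Filter.atBot := by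
      have h4 := h2.comp Filter.tendsto_neg_atBot_atTop
      refine h4.congr fun x => ?_
      simp [eval_comp]
    exact (g.continuous).surjective h1 h3 0
  rcases lt_trichotomy 0 f.leadingCoeff with h | h | h
  · exact key f hf h
  · exfalso
    rw [eq_comm, leadingCoeff_eq_zero] at h
    rw [h, natDegree_zero] at hf
    exact absurd hf (by decide)
  · obtain ⟨r, hr⟩ := key (-f) (by rwa [natDegree_neg]) (by rw [leadingCoeff_neg]; linarith)
    exact ⟨r, by simpa using hr⟩

section Generic

variable {K : Type*} [Field K]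

/-- The product of the translates. -/
noncomputable def tr (c : ℕ) (l : List K) : K := (l.map fun α => α + (c : K)).prod

lemma tr_nil (c : ℕ) : tr c ([] : List K) = 1 := rfl

lemma tr_cons (c : ℕ) (a : K) (l : List K) : tr c (a :: l) = (a + (c : K)) * tr c l := by
  rw [tr, List.map_cons, List.prod_cons]
  rfl

lemma tr_perm {c : ℕ} {l l' : List K} (h : l.Perm l') : tr c l = tr c l' :=
  (h.map _).prod_eq

lemma tr_append (c : ℕ) (l l' : List K) : tr c (l ++ l') = tr c l * tr c l' := by
  rw [tr, List.map_append, List.prod_append]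
  rfl

open Classical in
/-- Almost all integers separate the lists. -/
lemma exists_generic [CharZero K] (S : Finset K) (n : ℕ) : ∃ c : ℕ, ∀ l l' : List K, l.length ≤ n →
    l'.length ≤ n → (∀ a ∈ l, a ∈ S) → (∀ a ∈ l', a ∈ S) → tr c l = tr c l' → l.Perm l' := by
  have hfin : {l : List K | l.length ≤ n ∧ ∀ a ∈ l, a ∈ S}.Finite := by
    have h1 := (List.finite_length_le (↥S) n).image (List.map Subtype.val)
    refine h1.subset ?_
    rintro l ⟨hl, hS⟩
    refine ⟨l.attach.map fun a => ⟨a.1, hS a.1 a.2⟩, ?_, ?_⟩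
    · change (l.attach.map _).length ≤ n
      rwa [List.length_map, List.length_attach]
    · rw [List.map_map]
      exact List.attach_map_subtype_val l
  set P : List K → K[X] := fun l => (l.map fun a => X + C a).prod with hP
  have hroots : ∀ l : List K, (P l).roots = (l : Multiset K).map (fun a => -a) := by
    intro l
    have h1 : P l = (((l : Multiset K).map (fun a => -a)).map fun a => X - C a).prod := by
      rw [Multiset.map_map, Multiset.map_coe, Multiset.prod_coe, hP]
      exact congrArg List.prod (List.map_congr_left fun a _ => by simp)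
    rw [h1, roots_multiset_prod_X_sub_C]
  have hev : ∀ (c : ℕ) (l : List K), (P l).eval (c : K) = tr c l := by
    intro c l
    rw [hP, tr]
    dsimp only
    rw [eval_list_prod, List.map_map]
    exact congrArg List.prod (List.map_congr_left fun a _ => by simp [add_comm])
  have hbad : {c : ℕ | ∃ l ∈ {l : List K | l.length ≤ n ∧ ∀ a ∈ l, a ∈ S},
      ∃ l' ∈ {l : List K | l.length ≤ n ∧ ∀ a ∈ l, a ∈ S}, P l ≠ P l' ∧
        (P l - P l').eval (c : K) = 0}.Finite := by
    have h2 : {c : ℕ | ∃ l ∈ {l : List K | l.length ≤ n ∧ ∀ a ∈ l, a ∈ S},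
      ∃ l' ∈ {l : List K | l.length ≤ n ∧ ∀ a ∈ l, a ∈ S}, P l ≠ P l' ∧
        (P l - P l').eval (c : K) = 0} = ⋃ l ∈ {l : List K | l.length ≤ n ∧ ∀ a ∈ l, a ∈ S},
        ⋃ l' ∈ {l : List K | l.length ≤ n ∧ ∀ a ∈ l, a ∈ S},
          {c : ℕ | P l ≠ P l' ∧ (P l - P l').eval (c : K) = 0} := by
      ext c
      simp only [Set.mem_ofPred_eq, Set.mem_iUnion, exists_prop]
    rw [h2]
    refine hfin.biUnion fun l _ => hfin.biUnion fun l' _ => ?_
    by_cases h : P l = P l'
    · simp [h]
    · have h3 : P l - P l' ≠ 0 := sub_ne_zero.2 h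
      have h4 : ((P l - P l').roots.toFinset : Set K).Finite := Finset.finite_toSet _
      refine (h4.preimage (f := fun c : ℕ => (c : K)) Nat.cast_injective.injOn).subset ?_
      rintro c ⟨-, hc⟩
      rw [Set.mem_preimage, Finset.mem_coe, Multiset.mem_toFinset, mem_roots h3]
      exact hc
  obtain ⟨c, hc⟩ := hbad.exists_notMem
  refine ⟨c, fun l l' hl hl' hS hS' heq => ?_⟩
  by_contra hne
  apply hc
  refine ⟨l, ⟨hl, hS⟩, l', ⟨hl', hS'⟩, ?_, ?_⟩
  · intro h
    apply hne
    have h5 := congrArg roots h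
    rw [hroots, hroots] at h5
    exact Multiset.coe_eq_coe.1 (Multiset.map_injective neg_injective h5)
  · rw [eval_sub, hev, hev, heq, sub_self]

end Generic

section Conj

variable {K : Type*} [Field K] [CharZero K] [IsAlgClosed K]

/-- A conjugation, defined on a number field. -/
lemma exists_conj {S : Set K} (hS : ∀ a ∈ S, IsIntegral ℚ a) {x y : K} (hx : x ∈ adjoin ℚ S)
    (hy : aeval y (minpoly ℚ x) = 0) :
    ∃ T : K → K, T x = y ∧ Set.InjOn T (adjoin ℚ S) ∧ (∀ c : ℚ, T (c : K) = (c : K)) ∧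
      (∀ a ∈ adjoin ℚ S, ∀ b ∈ adjoin ℚ S, T (a + b) = T a + T b) ∧
      (∀ a ∈ adjoin ℚ S, ∀ b ∈ adjoin ℚ S, T (a * b) = T a * T b) ∧
      ∀ a ∈ adjoin ℚ S, ∀ f : ℚ[X], aeval a f = 0 → aeval (T a) f = 0 := by
  classical
  obtain ⟨τ, hτ⟩ := exists_algHom_adjoin_of_splits_of_aeval (F := ℚ) (S := S) (K := K)
    (fun s hs => ⟨hS s hs, IsAlgClosed.splits _⟩) hx hy
  refine ⟨fun a => if h : a ∈ adjoin ℚ S then τ ⟨a, h⟩ else 0, ?_, ?_, ?_, ?_, ?_, ?_⟩
  · beta_reduce
    rw [dif_pos hx, hτ]
  · intro a ha b hb hab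
    beta_reduce at hab
    rw [SetLike.mem_coe] at ha hb
    rw [dif_pos ha, dif_pos hb] at hab
    exact congrArg Subtype.val (τ.toRingHom.injective hab)
  · intro c
    have hc : (c : K) ∈ adjoin ℚ S := by
      have := (adjoin ℚ S).algebraMap_mem c
      rwa [eq_ratCast] at this
    beta_reduce
    rw [dif_pos hc]
    have h1 : (⟨(c : K), hc⟩ : adjoin ℚ S) = (c : adjoin ℚ S) := by
      apply Subtype.ext
      push_cast
      rfl
    rw [h1, map_ratCast]
  · intro a ha b hb
    beta_reduce
    rw [dif_pos ha, dif_pos hb, dif_pos (add_mem ha hb), ← map_add]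
    rfl
  · intro a ha b hb
    beta_reduce
    rw [dif_pos ha, dif_pos hb, dif_pos (mul_mem ha hb), ← map_mul]
    rfl
  · intro a ha f hf
    beta_reduce
    rw [dif_pos ha]
    have h1 : aeval (⟨a, ha⟩ : adjoin ℚ S) f = 0 := by
      apply Subtype.ext
      refine Eq.trans ?_ hf
      exact (aeval_algebraMap_apply K (⟨a, ha⟩ : adjoin ℚ S) f).symm
    rw [aeval_algHom_apply, h1, map_zero]

end Conj

end Pool.Agent.N181.Ab
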