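import Pool.Agent.N181.Ab.GalA

/-!
# Balanced lists of Weil numbers
-/

set_option autoImplicit false

open Polynomial IntermediateField

namespace Pool.Agent.N181.Ab

open Pool.Agent.N181.Mod

variable {K : Type*} [Field K] [CharZero K]

/-- A finite set of Weil numbers which is stable under conjugation. -/
structure WSet (σ : K →+* ℂ) (Q : ℕ) (S : Finset K) : Prop where
  pos : 0 < Q
  root : ∃ χ : ℚ[X], χ ≠ 0 ∧ ∀ a, a ∈ S ↔ aeval a χ = 0
  norm : ∀ a ∈ S, ‖σ a‖ ^ 2 = (Q : ℝ)

/-- The dual Weil number. -/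
noncomputable def du (Q : ℕ) (a : K) : K := (Q : K) / a

/-- The list is invariant, up to order, under the passage to the dual Weil numbers. -/
def Bal (Q : ℕ) (l : List K) : Prop := l.Perm (l.map (du Q))

/-- The integer `c` separates the lists. -/
def Gen (S : Finset K) (n c : ℕ) : Prop := ∀ l l' : List K, l.length ≤ n →
    l'.length ≤ n → (∀ a ∈ l, a ∈ S) → (∀ a ∈ l', a ∈ S) → tr c l = tr c l' → l.Perm l'

variable {σ : K →+* ℂ} {Q : ℕ} {S : Finset K}

lemma WSet.ne (h : WSet σ Q S) {a : K} (ha : a ∈ S) : a ≠ 0 := by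
  rintro rfl
  have h1 := h.norm 0 ha
  rw [map_zero, norm_zero] at h1
  have h2 : (0 : ℝ) < Q := Nat.cast_pos.2 h.pos
  norm_num at h1
  linarith

lemma WSet.int (h : WSet σ Q S) {a : K} (ha : a ∈ S) : IsIntegral ℚ a := by
  obtain ⟨χ, h0, hχ⟩ := h.root
  exact isAlgebraic_iff_isIntegral.1 ⟨χ, h0, (hχ a).1 ha⟩

lemma map_aeval_ring {L : Type*} [Field L] [CharZero L] (τ : K →+* L) (f : ℚ[X]) (a : K) :
    τ (aeval a f) = aeval (τ a) f := by
  have h1 := aeval_algHom_apply (R := ℚ) τ.toRatAlgHom a f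
  exact h1.symm

lemma WSet.conj_eq (h : WSet σ Q S) {a : K} (ha : a ∈ S) :
    (starRingEnd ℂ) (σ a) = σ (du Q a) := by
  have h0 : σ a ≠ 0 := (map_ne_zero σ).2 (h.ne ha)
  rw [du, map_div₀, map_natCast, eq_div_iff h0, mul_comm, Complex.mul_conj,
    Complex.normSq_eq_norm_sq, h.norm a ha]
  push_cast
  rfl

lemma WSet.du_mem (h : WSet σ Q S) {a : K} (ha : a ∈ S) : du Q a ∈ S := by
  obtain ⟨χ, h0, hχ⟩ := h.root
  rw [hχ]
  apply σ.injective
  rw [map_aeval_ring, ← h.conj_eq ha, map_zero, ← map_aeval_ring (starRingEnd ℂ), ← map_aeval_ring,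
    (hχ a).1 ha, map_zero, map_zero]

lemma WSet.du_du (h : WSet σ Q S) {a : K} (ha : a ∈ S) : du Q (du Q a) = a := by
  have h0 := h.ne ha
  have hQ : (Q : K) ≠ 0 := Nat.cast_ne_zero.2 h.pos.ne'
  rw [du, du]
  field_simp

lemma WSet.map_du (h : WSet σ Q S) {l : List K} (hl : ∀ a ∈ l, a ∈ S) :
    ∀ a ∈ l.map (du Q), a ∈ S := by
  intro a ha
  obtain ⟨b, hb, rfl⟩ := List.mem_map.1 ha
  exact h.du_mem (hl b hb)

/-- The conjugations permute the Weil numbers. -/
lemma WSet.exists_conj [IsAlgClosed K] (h : WSet σ Q S) {c : ℕ} {l : List K}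
    (hl : ∀ a ∈ l, a ∈ S) {y : K} (hy : aeval y (minpoly ℚ (tr c l)) = 0) :
    ∃ T : K → K, (∀ a ∈ S, T a ∈ S) ∧ (∀ a ∈ S, T (du Q a) = du Q (T a)) ∧
      tr c (l.map T) = y ∧
      ∀ l₁ l₂ : List K, (∀ a ∈ l₁, a ∈ S) → (∀ a ∈ l₂, a ∈ S) →
        tr c (l₁.map T) = tr c (l₂.map T) → tr c l₁ = tr c l₂ := by
  have hmem : ∀ a ∈ S, a ∈ adjoin ℚ (S : Set K) := fun a ha => subset_adjoin ℚ _ ha
  have hc : (c : K) ∈ adjoin ℚ (S : Set K) := by
    have := (adjoin ℚ (S : Set K)).algebraMap_mem (c : ℚ)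
    rwa [map_natCast] at this
  have htr : ∀ l : List K, (∀ a ∈ l, a ∈ S) → tr c l ∈ adjoin ℚ (S : Set K) := by
    intro l hl
    rw [tr]
    refine list_prod_mem fun b hb => ?_
    obtain ⟨a, ha, rfl⟩ := List.mem_map.1 hb
    exact add_mem (hmem a (hl a ha)) hc
  obtain ⟨T, hT, hinj, hrat, hadd, hmul, hroot⟩ := Ab.exists_conj
    (fun a ha => h.int ha) (htr l hl) hy
  have hTc : T (c : K) = (c : K) := by
    have := hrat (c : ℚ)
    rwa [Rat.cast_natCast] at this
  have hTtr : ∀ l : List K, (∀ a ∈ l, a ∈ S) → T (tr c l) = tr c (l.map T) := by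
    intro l
    induction l with
    | nil =>
      intro _
      rw [List.map_nil, tr_nil]
      have := hrat 1
      rwa [Rat.cast_one] at this
    | cons a l ih =>
      intro hl
      have ha := hl a List.mem_cons_self
      have hl' : ∀ b ∈ l, b ∈ S := fun b hb => hl b (List.mem_cons_of_mem _ hb)
      rw [List.map_cons, tr_cons, tr_cons, hmul _ (add_mem (hmem a ha) hc) _ (htr l hl'),
        hadd _ (hmem a ha) _ hc, hTc, ih hl']
  have hTS : ∀ a ∈ S, T a ∈ S := by
    intro a ha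
    obtain ⟨χ, h0, hχ⟩ := h.root
    rw [hχ]
    exact hroot a (hmem a ha) χ ((hχ a).1 ha)
  refine ⟨T, hTS, ?_, ?_, ?_⟩
  · intro a ha
    have h1 := hmul a (hmem a ha) (du Q a) (hmem _ (h.du_mem ha))
    have h2 : a * du Q a = ((Q : ℚ) : K) := by
      rw [du, Rat.cast_natCast]
      field_simp [h.ne ha]
    rw [h2, hrat, Rat.cast_natCast] at h1
    have h3 : T (du Q a) = (Q : K) / T a := by
      rw [eq_div_iff (h.ne (hTS a ha)), mul_comm, ← h1]
    rw [h3]
    rfl
  · rw [← hT, hTtr l hl]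
  · intro l₁ l₂ h1 h2 h3
    rw [← hTtr l₁ h1, ← hTtr l₂ h2] at h3
    exact hinj (htr l₁ h1) (htr l₂ h2) h3

/-- **Odd degree implies balanced.** -/
theorem WSet.bal_of_odd [IsAlgClosed K] (h : WSet σ Q S) {n c : ℕ} (hg : Gen S n c) {l : List K}
    (hl : ∀ a ∈ l, a ∈ S) (hn : l.length ≤ n) (hodd : ¬ 2 ∣ qdeg (tr c l)) : Bal Q l := by
  have hodd' : Odd (minpoly ℚ (tr c l)).natDegree := by
    rw [← Nat.not_even_iff_odd, even_iff_two_dvd]
    exact hodd
  set f := minpoly ℚ (tr c l) with hf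
  obtain ⟨r, hr⟩ := exists_real_root (f := f.map (algebraMap ℚ ℝ)) (by rwa [natDegree_map])
  have hf0 : f ≠ 0 := by
    intro h0
    rw [h0, natDegree_zero] at hodd'
    exact absurd hodd' (by decide)
  have hrC : aeval (r : ℂ) f = 0 := by
    rw [eval_map_algebraMap] at hr
    have h1 := map_aeval_ring Complex.ofRealHom f r
    rw [hr, map_zero] at h1
    exact h1.symm
  -- the roots in `K`
  have hsp : ∃ y : K, aeval y f = 0 ∧ σ y = (r : ℂ) := by
    have h1 : (f.map (algebraMap ℚ K)).Splits := IsAlgClosed.splits _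
    have h2 := h1.eq_prod_roots
    have h3 := congrArg (fun g => g.map σ) h2
    rw [Polynomial.map_map, Polynomial.map_mul, Polynomial.map_multiset_prod, Multiset.map_map,
      map_C] at h3
    have h4 : (f.map (σ.comp (algebraMap ℚ K))).eval (r : ℂ) = 0 := by
      rw [← hrC, aeval_def, eval_map]
      congr 1
      exact Subsingleton.elim _ _
    rw [h3, eval_mul, eval_C, eval_multiset_prod, Multiset.map_map, mul_eq_zero] at h4
    rcases h4 with h4 | h4
    · exfalso
      rw [map_eq_zero, leadingCoeff_eq_zero] at h4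
      exact hf0 ((Polynomial.map_eq_zero_iff (algebraMap ℚ K).injective).1 h4)
    · rw [Multiset.prod_eq_zero_iff, Multiset.mem_map] at h4
      obtain ⟨y, hy, hy'⟩ := h4
      refine ⟨y, ?_, ?_⟩
      · rw [mem_roots'] at hy
        rw [← eval_map_algebraMap]
        exact hy.2
      · simp only [Function.comp_apply, Polynomial.map_sub, map_X, map_C, eval_sub, eval_X,
          eval_C] at hy'
        exact (sub_eq_zero.1 hy').symm
  obtain ⟨y, hy, hyr⟩ := hsp
  obtain ⟨T, hTS, hTd, hTy, hTi⟩ := h.exists_conj hl hy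
  -- complex conjugation
  have hconj : ∀ l : List K, (∀ a ∈ l, a ∈ S) → (starRingEnd ℂ) (σ (tr c (l.map T))) =
      σ (tr c ((l.map (du Q)).map T)) := by
    intro l
    induction l with
    | nil => intro _; simp [tr]
    | cons a l ih =>
      intro hl
      have ha := hl a List.mem_cons_self
      rw [List.map_cons, List.map_cons, List.map_cons, tr_cons, tr_cons, map_mul, map_mul,
        map_mul, ih (fun b hb => hl b (List.mem_cons_of_mem _ hb)), hTd a ha, map_add, map_add,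
        map_add, map_natCast, map_natCast, h.conj_eq (hTS a ha)]
  have h5 : tr c (l.map T) = tr c ((l.map (du Q)).map T) := by
    apply σ.injective
    rw [← hconj l hl, hTy, hyr, Complex.conj_ofReal]
  exact hg l (l.map (du Q)) hn (by rwa [List.length_map]) hl (h.map_du hl)
    (hTi l (l.map (du Q)) hl (h.map_du hl) h5)

/-- The conjugates of the numbers given by balanced lists are given by balanced lists. -/
theorem WSet.bal_conj [IsAlgClosed K] (h : WSet σ Q S) {n c : ℕ} (hg : Gen S n c)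
    {l l' : List K} (hl : ∀ a ∈ l, a ∈ S) (hl' : ∀ a ∈ l', a ∈ S) (hn : l.length ≤ n)
    (hn' : l'.length ≤ n) (hb : Bal Q l) (heq : minpoly ℚ (tr c l') = minpoly ℚ (tr c l)) :
    Bal Q l' := by
  have hy : aeval (tr c l') (minpoly ℚ (tr c l)) = 0 := by rw [← heq, minpoly.aeval]
  obtain ⟨T, hTS, hTd, hTy, hTi⟩ := h.exists_conj hl hy
  have hlT : ∀ a ∈ l.map T, a ∈ S := by
    intro a ha
    obtain ⟨b, hb, rfl⟩ := List.mem_map.1 ha
    exact hTS b (hl b hb)
  have h1 : l'.Perm (l.map T) := hg l' (l.map T) hn' (by rwa [List.length_map]) hl' hlT hTy.symm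
  have h2 : (l.map T).Perm ((l.map T).map (du Q)) := by
    have h3 := hb.map T
    have h4 : (l.map (du Q)).map T = (l.map T).map (du Q) := by
      rw [List.map_map, List.map_map]
      exact List.map_congr_left fun a ha => hTd a (hl a ha)
    rwa [h4] at h3
  exact h1.trans (h2.trans (h1.symm.map _))

open Classical in
/-- A rational polynomial which separates two sets of conjugacy classes. -/
lemma exists_rat_sep (s : Finset K) (B : K → Prop) (hint : ∀ a ∈ s, IsIntegral ℚ a)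
    (hB : ∀ a ∈ s, ∀ b ∈ s, B a → ¬ B b → minpoly ℚ a ≠ minpoly ℚ b) :
    ∃ u : ℚ[X], ∀ a ∈ s, (B a → aeval a u = 1) ∧ (¬ B a → aeval a u = 0) := by
  set g₁ : ℚ[X] := ∏ a ∈ s.filter B, minpoly ℚ a with hg₁
  set g₂ : ℚ[X] := ∏ a ∈ s.filter (fun a => ¬ B a), minpoly ℚ a with hg₂
  have hcop : IsCoprime g₁ g₂ := by
    refine IsCoprime.prod_left fun a ha => IsCoprime.prod_right fun b hb => ?_
    rw [Finset.mem_filter] at ha hb
    have h1 := minpoly.irreducible (hint a ha.1)
    have h2 := minpoly.irreducible (hint b hb.1)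
    rw [h1.coprime_iff_not_dvd]
    intro hdvd
    exact hB a ha.1 b hb.1 ha.2 hb.2 (eq_of_monic_of_associated (minpoly.monic (hint a ha.1))
      (minpoly.monic (hint b hb.1)) ((h1.dvd_irreducible_iff_associated h2).1 hdvd))
  obtain ⟨x, y, hxy⟩ := hcop
  refine ⟨y * g₂, fun a ha => ⟨fun hBa => ?_, fun hBa => ?_⟩⟩
  · have h1 : aeval a g₁ = 0 := by
      rw [hg₁, map_prod]
      exact Finset.prod_eq_zero (Finset.mem_filter.2 ⟨ha, hBa⟩) (minpoly.aeval ℚ a)
    have h2 := congrArg (aeval a) hxy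
    rw [map_add, map_mul, h1, mul_zero, zero_add, map_one] at h2
    exact h2
  · have h1 : aeval a g₂ = 0 := by
      rw [hg₂, map_prod]
      exact Finset.prod_eq_zero (Finset.mem_filter.2 ⟨ha, hBa⟩) (minpoly.aeval ℚ a)
    rw [map_mul, h1, mul_zero]

end Pool.Agent.N181.Ab
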