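import Pool.Agent.N181.Ab.AlgA
import Pool.Agent.N181.Ab.Defs
import Pool.Agent.N181.Mod.Main1

/-!
# Contractions in the cohomology of an abelian variety
-/

set_option autoImplicit false

open CategoryTheory AlgebraicGeometry Polynomial TensorProduct

universe u v

namespace Pool.Agent.N181.Ab

open Pool.Agent.H914 Pool.Agent.H914.VarClass Pool.Agent.H914.VarClass.Obj
  Pool.Agent.H914.WeilCohomology Pool.Agent.H281R3.HT Pool.Agent.W534 Pool.Agent.TH132.P
  Pool.Agent.R908 Pool.Agent.N181.Mod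

variable {k : Type u} [Field k] {𝒱 : VarClass k} {ops : CycleOps 𝒱}
  {W : WeilCohomology.{u, v} ops} {A : 𝒱.Obj} {m : A.prod A ⟶ A}

/-- The slice of a class on `A × A` by a functional on the cohomology of the first factor. -/
noncomputable def sl (W : WeilCohomology.{u, v} ops) {A : 𝒱.Obj} (f : W.H A →ₗ[W.K] W.K) :
    W.H (A.prod A) →ₗ[W.K] W.H A :=
  (TensorProduct.lid W.K (W.H A)).toLinearMap ∘ₗ TensorProduct.map f LinearMap.id ∘ₗ
    (kappa W A A).symm.toLinearMap

lemma sl_tmul (f : W.H A →ₗ[W.K] W.K) (a b : W.H A) :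
    sl W f (W.map (fst A A) a * W.map (snd A A) b) = f a • b := by
  rw [sl, LinearMap.comp_apply, LinearMap.comp_apply, LinearEquiv.coe_coe, LinearEquiv.coe_coe,
    ← kappa_tmul, LinearEquiv.symm_apply_apply, TensorProduct.map_tmul, TensorProduct.lid_tmul]
  rfl

lemma extOp_smulRight (f : W.H A →ₗ[W.K] W.K) (x : W.H A) (z : W.H (A.prod A)) :
    extOp W (f.smulRight x) (1 : Module.End W.K (W.H A)) z = ext W x (sl W f z) := by
  have h : extOp W (f.smulRight x) (1 : Module.End W.K (W.H A)) =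
      (LinearMap.mulLeft W.K (W.map (fst A A) x) ∘ₗ (W.map (snd A A)).toLinearMap) ∘ₗ sl W f := by
    apply ext_kunneth_lin
    intro a b
    rw [extOp_tmul, LinearMap.comp_apply, sl_tmul]
    change W.map (fst A A) (f a • x) * W.map (snd A A) b = W.map (fst A A) x *
      W.map (snd A A) (f a • b)
    rw [map_smul, map_smul, smul_mul_assoc, mul_smul_comm]
  rw [h]
  rfl

/-- The functional is zero outside the degree `j`. -/
def IsDeg (W : WeilCohomology.{u, v} ops) (A : 𝒱.Obj) (f : W.H A →ₗ[W.K] W.K) (j : ℕ) : Prop :=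
  ∀ i, i ≠ j → ∀ a ∈ W.gr A i, f a = 0

lemma snd_fst' {x u : W.H A} {i : ℕ} (hx : x ∈ W.gr A 1) (hu : u ∈ W.gr A i) (v : W.H A) :
    W.map (snd A A) x * (W.map (fst A A) u * W.map (snd A A) v) =
      (-1 : W.K) ^ i • (W.map (fst A A) u * W.map (snd A A) (x * v)) := by
  rw [← mul_assoc, W.comm (W.map_mem (snd A A) hx) (W.map_mem (fst A A) hu), smul_mul_assoc,
    mul_assoc, ← map_mul, one_mul]

/-- The contraction with a functional. -/
noncomputable def io (W : WeilCohomology.{u, v} ops) {A : 𝒱.Obj} (m : A.prod A ⟶ A)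
    (f : W.H A →ₗ[W.K] W.K) : W.H A →ₗ[W.K] W.H A := sl W f ∘ₗ (W.map m).toLinearMap

section Slice

variable {ε f : W.H A →ₗ[W.K] W.K} (hε : IsDeg W A ε 0) (hε1 : ε 1 = 1) (hf : IsDeg W A f 1)

include hε hε1 hf in
lemma sl_fst {x : W.H A} (hx : x ∈ W.gr A 1) (z : W.H (A.prod A)) :
    sl W f (W.map (fst A A) x * z) = f x • sl W ε z := by
  refine W.kunneth_induction (p := fun z => sl W f (W.map (fst A A) x * z) = f x • sl W ε z)
    ?_ ?_ z
  · intro a b ha hb
    rw [mul_add, map_add, map_add, ha, hb, smul_add]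
  · intro i j a ha b _
    rw [← mul_assoc, ← map_mul, sl_tmul, sl_tmul, smul_smul]
    congr 1
    by_cases hi : i = 0
    · subst hi
      rw [W.gr_zero A, Submodule.mem_span_singleton] at ha
      obtain ⟨c, rfl⟩ := ha
      rw [mul_smul_comm, mul_one, map_smul, map_smul, hε1, smul_eq_mul, smul_eq_mul, mul_one,
        mul_comm]
    · rw [hε i hi a ha, mul_zero, hf (1 + i) (by omega) _ (W.mul_mem hx ha)]

include hf in
lemma sl_snd {x : W.H A} (hx : x ∈ W.gr A 1) (z : W.H (A.prod A)) :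
    sl W f (W.map (snd A A) x * z) = -(x * sl W f z) := by
  refine W.kunneth_induction (p := fun z => sl W f (W.map (snd A A) x * z) = -(x * sl W f z))
    ?_ ?_ z
  · intro a b ha hb
    rw [mul_add, map_add, map_add, ha, hb, mul_add, neg_add]
  · intro i j a ha b _
    rw [snd_fst' hx ha, map_smul, sl_tmul, sl_tmul]
    by_cases hi : i = 1
    · subst hi
      rw [pow_one, neg_one_smul, mul_smul_comm]
    · rw [hf i hi a ha, zero_smul, smul_zero, zero_smul, mul_zero, neg_zero]

include hε in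
lemma sl_eps_fst {x : W.H A} (hx : x ∈ W.gr A 1) (z : W.H (A.prod A)) :
    sl W ε (W.map (fst A A) x * z) = 0 := by
  refine W.kunneth_induction (p := fun z => sl W ε (W.map (fst A A) x * z) = 0) ?_ ?_ z
  · intro a b ha hb
    rw [mul_add, map_add, ha, hb, add_zero]
  · intro i j a ha b _
    rw [← mul_assoc, ← map_mul, sl_tmul, hε (1 + i) (by omega) _ (W.mul_mem hx ha), zero_smul]

include hε in
lemma sl_eps_snd {x : W.H A} (hx : x ∈ W.gr A 1) (z : W.H (A.prod A)) :
    sl W ε (W.map (snd A A) x * z) = x * sl W ε z := by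
  refine W.kunneth_induction (p := fun z => sl W ε (W.map (snd A A) x * z) = x * sl W ε z)
    ?_ ?_ z
  · intro a b ha hb
    rw [mul_add, map_add, map_add, ha, hb, mul_add]
  · intro i j a ha b _
    rw [snd_fst' hx ha, map_smul, sl_tmul, sl_tmul]
    by_cases hi : i = 0
    · subst hi
      rw [pow_zero, one_smul, mul_smul_comm]
    · rw [hε i hi a ha, zero_smul, smul_zero, zero_smul, mul_zero]

variable (hA : IsAbelianLike W A m)

include hε hε1 hA in
lemma eps_comul {i : ℕ} : ∀ y ∈ W.gr A 1 ^ i, sl W ε (W.map m y) = y := by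
  induction i with
  | zero =>
    intro y hy
    rw [pow_zero, Submodule.mem_one] at hy
    obtain ⟨c, rfl⟩ := hy
    have h1 := sl_tmul (W := W) ε (1 : W.H A) 1
    rw [map_one, map_one, mul_one, hε1, one_smul] at h1
    rw [Algebra.algebraMap_eq_smul_one, map_smul, map_smul, map_one, h1]
  | succ i ih =>
    intro y hy
    rw [pow_succ'] at hy
    refine Submodule.mul_induction_on hy ?_ ?_
    · intro x hx y hy
      rw [map_mul, hA.add x hx, add_mul, map_add, sl_eps_fst hε hx, zero_add, sl_eps_snd hε hx,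
        ih y hy]
    · intro x y hx hy
      rw [map_add, map_add, hx, hy]

include hf in
lemma io_one : io W m f 1 = 0 := by
  have h1 := sl_tmul (W := W) f (1 : W.H A) 1
  rw [map_one, map_one, mul_one, hf 0 (by omega) _ (W.one_mem A), zero_smul] at h1
  change sl W f (W.map m 1) = 0
  rw [map_one, h1]

include hε hε1 hf hA in
lemma io_mul {x : W.H A} (hx : x ∈ W.gr A 1) {i : ℕ} {y : W.H A} (hy : y ∈ W.gr A 1 ^ i) :
    io W m f (x * y) = f x • y - x * io W m f y := by
  change sl W f (W.map m (x * y)) = f x • y - x * sl W f (W.map m y)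
  rw [map_mul, hA.add x hx, add_mul, map_add, sl_fst hε hε1 hf hx, sl_snd hf hx,
    eps_comul hε hε1 hA y hy]
  abel

include hε hε1 hf hA in
lemma io_mul_two {D : W.H A} (hD : D ∈ W.gr A 1 ^ 2) {i : ℕ} {y : W.H A}
    (hy : y ∈ W.gr A 1 ^ i) : io W m f (D * y) = io W m f D * y + D * io W m f y := by
  rw [pow_two] at hD
  refine Submodule.mul_induction_on hD ?_ ?_
  · intro a ha b hb
    have hb1 : b ∈ W.gr A 1 ^ 1 := by rwa [pow_one]
    have e1 : io W m f b = f b • (1 : W.H A) := by
      have h1 := io_mul hε hε1 hf hA hb (i := 0) (y := 1) (by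
        rw [pow_zero, Submodule.mem_one]; exact ⟨1, map_one _⟩)
      rw [mul_one, io_one hf, mul_zero, sub_zero] at h1
      exact h1
    rw [mul_assoc, io_mul hε hε1 hf hA ha (i := i + 1) (by
      rw [pow_succ']; exact Submodule.mul_mem_mul hb hy), io_mul hε hε1 hf hA hb hy,
      io_mul hε hε1 hf hA ha hb1, e1]
    simp only [mul_sub, sub_mul, smul_mul_assoc, mul_smul_comm, mul_one, mul_assoc]
    abel
  · intro a b ha hb
    rw [add_mul, map_add, ha, hb, map_add, add_mul, add_mul]
    abel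

include hε hε1 hf hA in
lemma io_pow {D : W.H A} (hD : D ∈ W.gr A 1 ^ 2) (h0 : io W m f D = 0) (n : ℕ) :
    io W m f (D ^ n) = 0 := by
  induction n with
  | zero => rw [pow_zero, io_one hf]
  | succ n ih =>
    have h1 : D ^ n ∈ W.gr A 1 ^ (2 * n) := by
      rw [pow_mul]
      exact Submodule.pow_mem_pow _ hD n
    rw [pow_succ', io_mul_two hε hε1 hf hA hD h1, h0, ih, zero_mul, mul_zero, add_zero]

include hε hε1 hf hA in
/-- **Contractions with a nondegenerate class.** -/
theorem io_inj {D : W.H A} (hD : D ∈ W.gr A 1 ^ 2) (hD2 : D ∈ W.gr A 2)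
    (hne : D ^ A.dim ≠ 0) (h0 : io W m f D = 0) : ∀ x ∈ W.gr A 1, f x = 0 := by
  intro x hx
  have h1 : D ^ A.dim ∈ W.gr A 1 ^ (2 * A.dim) := by
    rw [pow_mul]
    exact Submodule.pow_mem_pow _ hD _
  have h2 : ∀ n, D ^ n ∈ W.gr A (2 * n) := by
    intro n
    induction n with
    | zero => rw [pow_zero, mul_zero]; exact W.one_mem A
    | succ n ih =>
      rw [pow_succ, show 2 * (n + 1) = 2 * n + 2 by ring]
      exact W.mul_mem ih hD2
  have h3 : x * D ^ A.dim = 0 := by
    have h4 := W.mul_mem hx (h2 A.dim)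
    rw [W.gr_eq_bot A _ (by omega)] at h4
    exact (Submodule.mem_bot _).1 h4
  have h5 := io_mul hε hε1 hf hA hx h1
  rw [h3, map_zero, io_pow hε hε1 hf hA hD h0, mul_zero, sub_zero] at h5
  exact (smul_eq_zero.1 h5.symm).resolve_right hne

include hε hε1 hf hA in
lemma io_mem {D : W.H A} (hD : D ∈ W.gr A 1 ^ 2) : io W m f D ∈ W.gr A 1 := by
  rw [pow_two] at hD
  refine Submodule.mul_induction_on hD ?_ ?_
  · intro a ha b hb
    have hb1 : b ∈ W.gr A 1 ^ 1 := by rwa [pow_one]
    have e1 : io W m f b = f b • (1 : W.H A) := by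
      have h1 := io_mul hε hε1 hf hA hb (i := 0) (y := 1) (by
        rw [pow_zero, Submodule.mem_one]; exact ⟨1, map_one _⟩)
      rw [mul_one, io_one hf, mul_zero, sub_zero] at h1
      exact h1
    rw [io_mul hε hε1 hf hA ha hb1, e1, mul_smul_comm, mul_one]
    exact Submodule.sub_mem _ (Submodule.smul_mem _ _ hb) (Submodule.smul_mem _ _ ha)
  · intro a b ha hb
    rw [map_add]
    exact Submodule.add_mem _ ha hb

end Slice

/-- The functional extracting the degree zero. -/
lemma exists_eps (h1 : (1 : W.H A) ≠ 0) : ∃ ε : W.H A →ₗ[W.K] W.K, IsDeg W A ε 0 ∧ ε 1 = 1 := by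
  obtain ⟨g, hg⟩ : ∃ g : Module.Dual W.K (W.H A), g 1 ≠ 0 := by
    by_contra hcon
    push Not at hcon
    exact h1 ((Module.forall_dual_apply_eq_zero_iff W.K _).1 hcon)
  refine ⟨((g 1)⁻¹ • g) ∘ₗ proj (W.isInternal A) 0, ?_, ?_⟩
  · intro i hi a ha
    rw [LinearMap.comp_apply, proj_ne _ ha hi, map_zero]
  · rw [LinearMap.comp_apply, proj_same _ (W.one_mem A), LinearMap.smul_apply, smul_eq_mul,
      inv_mul_cancel₀ hg]

lemma sl_add (f g : W.H A →ₗ[W.K] W.K) : sl W (f + g) = sl W f + sl W g := by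
  apply ext_kunneth_lin
  intro a b
  rw [LinearMap.add_apply, sl_tmul, sl_tmul, sl_tmul, LinearMap.add_apply, add_smul]

lemma sl_smul (c : W.K) (f : W.H A →ₗ[W.K] W.K) : sl W (c • f) = c • sl W f := by
  apply ext_kunneth_lin
  intro a b
  rw [LinearMap.smul_apply, sl_tmul, sl_tmul, LinearMap.smul_apply, smul_eq_mul, mul_smul]

section Main

variable (hA : IsAbelianLike W A m)
include hA

/-- The contractions of a nondegenerate class are all classes of degree one. -/
theorem exists_io (h1 : (1 : W.H A) ≠ 0) {D : W.H A} (hD : D ∈ W.gr A 2)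
    (hne : D ^ A.dim ≠ 0) {y : W.H A} (hy : y ∈ W.gr A 1) :
    ∃ f : W.H A →ₗ[W.K] W.K, IsDeg W A f 1 ∧ io W m f D = y := by
  obtain ⟨ε, hε, hε1⟩ := exists_eps h1
  have hD' := hA.gen 2 hD
  set P : W.H A →ₗ[W.K] W.gr A 1 :=
    (proj (W.isInternal A) 1).codRestrict _ (fun a => proj_mem (W.isInternal A) 1 a) with hP
  have hdeg : ∀ g : Module.Dual W.K (W.gr A 1), IsDeg W A (g ∘ₗ P) 1 := by
    intro g i hi a ha
    have : P a = 0 := Subtype.ext (proj_ne (W.isInternal A) ha hi)
    rw [LinearMap.comp_apply, this, map_zero]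
  let J : Module.Dual W.K (W.gr A 1) →ₗ[W.K] W.gr A 1 :=
    { toFun := fun g => ⟨io W m (g ∘ₗ P) D, io_mem hε hε1 (hdeg g) hA hD'⟩
      map_add' := fun g g' => by
        apply Subtype.ext
        change sl W ((g + g') ∘ₗ P) (W.map m D) = sl W (g ∘ₗ P) (W.map m D) +
          sl W (g' ∘ₗ P) (W.map m D)
        rw [LinearMap.add_comp, sl_add, LinearMap.add_apply]
      map_smul' := fun c g => by
        apply Subtype.ext
        change sl W ((c • g) ∘ₗ P) (W.map m D) = c • sl W (g ∘ₗ P) (W.map m D)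
        rw [LinearMap.smul_comp, sl_smul, LinearMap.smul_apply] }
  have hinj : Function.Injective J := by
    rw [← LinearMap.ker_eq_bot, LinearMap.ker_eq_bot']
    intro g hg
    have h2 : io W m (g ∘ₗ P) D = 0 := congrArg Subtype.val hg
    have h3 := io_inj hε hε1 (hdeg g) hA hD' hD hne h2
    ext x
    have h4 := h3 (x : W.H A) x.2
    have h5 : P (x : W.H A) = x := Subtype.ext (proj_same (W.isInternal A) x.2)
    rw [LinearMap.comp_apply, h5] at h4
    exact h4
  have hsurj : Function.Surjective J :=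
    (LinearMap.injective_iff_surjective_of_finrank_eq_finrank
      (Subspace.dual_finrank_eq)).1 hinj
  obtain ⟨g, hg⟩ := hsurj ⟨y, hy⟩
  exact ⟨g ∘ₗ P, hdeg g, congrArg Subtype.val hg⟩

/-- Contractions and algebra endomorphisms. -/
lemma io_frob (h1 : (1 : W.H A) ≠ 0) {F : W.H A →ₐ[W.K] W.H A}
    (hF : ∀ i, ∀ a ∈ W.gr A i, F a ∈ W.gr A i) {f : W.H A →ₗ[W.K] W.K} (hf : IsDeg W A f 1)
    (i : ℕ) : ∀ y ∈ W.gr A 1 ^ i,
      F (io W m (f ∘ₗ F.toLinearMap) y) = io W m f (F y) := by
  obtain ⟨ε, hε, hε1⟩ := exists_eps h1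
  have hf' : IsDeg W A (f ∘ₗ F.toLinearMap) 1 := fun j hj a ha => hf j hj _ (hF j a ha)
  have hFpow : ∀ i, ∀ y ∈ W.gr A 1 ^ i, F y ∈ W.gr A 1 ^ i := by
    intro i
    induction i with
    | zero =>
      intro y hy
      rw [pow_zero, Submodule.mem_one] at hy ⊢
      obtain ⟨c, rfl⟩ := hy
      exact ⟨c, (AlgHom.commutes F c).symm⟩
    | succ i ih =>
      intro y hy
      rw [pow_succ'] at hy ⊢
      refine Submodule.mul_induction_on hy ?_ ?_
      · intro a ha b hb
        rw [map_mul]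
        exact Submodule.mul_mem_mul (hF 1 a ha) (ih b hb)
      · intro a b ha hb
        rw [map_add]
        exact Submodule.add_mem _ ha hb
  induction i with
  | zero =>
    intro y hy
    rw [pow_zero, Submodule.mem_one] at hy
    obtain ⟨c, rfl⟩ := hy
    rw [Algebra.algebraMap_eq_smul_one, map_smul, io_one hf', smul_zero, map_zero, map_smul,
      map_one, map_smul, io_one hf, smul_zero]
  | succ i ih =>
    intro y hy
    rw [pow_succ'] at hy
    refine Submodule.mul_induction_on hy ?_ ?_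
    · intro x hx y hy
      rw [io_mul hε hε1 hf' hA hx hy, map_sub, map_smul, map_mul, map_mul, ih y hy,
        io_mul hε hε1 hf hA (hF 1 x hx) (hFpow i y hy)]
      rfl
    · intro x y hx hy
      simp only [map_add, hx, hy]

end Main

end Pool.Agent.N181.Ab
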