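import Pool.Agent.N181.Ab.Odd
import Pool.Agent.N181.Mod.Self

/-!
# The formula of Kunneth modulo two for abelian varieties
-/

set_option autoImplicit false

open CategoryTheory AlgebraicGeometry Polynomial TensorProduct

universe u v

namespace Pool.Agent.N181.Ab

open Pool.Agent.H914 Pool.Agent.H914.VarClass Pool.Agent.H914.VarClass.Obj
  Pool.Agent.H914.WeilCohomology Pool.Agent.H281R3.HT Pool.Agent.W534 Pool.Agent.TH132.P
  Pool.Agent.R908 Pool.Agent.N181.Mod

variable {k : Type u} [Field k] {𝒱 : VarClass k} {ops : CycleOps 𝒱}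
  {W : WeilCohomology.{u, v} ops} {A : 𝒱.Obj} {σ : W.K →+* ℂ}
  {F Ψ : W.H A →ₐ[W.K] W.H A} {ξ : W.H A} {S : Finset W.K} {Q c : ℕ} {r : W.K}

/-- Orthogonal sums of good projectors. -/
lemma isGood_sum {X : 𝒱.Obj} {m : ℕ} {ι : Type*} (s : Finset ι)
    {G : ι → Module.End W.K (W.H X)} (hG : ∀ i ∈ s, IsGood W X m (G i))
    (hort : ∀ i ∈ s, ∀ j ∈ s, i ≠ j → G i * G j = 0) : IsGood W X m (∑ i ∈ s, G i) := by
  classical
  induction s using Finset.induction_on with
  | empty => rw [Finset.sum_empty]; exact IsGood.zero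
  | insert a s ha ih =>
    rw [Finset.sum_insert ha]
    refine IsGood.add (hG a (by simp)) (ih (fun i hi => hG i (by simp [hi]))
      (fun i hi j hj => hort i (by simp [hi]) j (by simp [hj]))) ?_ ?_
    · rw [Finset.mul_sum]
      exact Finset.sum_eq_zero fun i hi => hort a (by simp) i (by simp [hi])
        (fun h => ha (h ▸ hi))
    · rw [Finset.sum_mul]
      exact Finset.sum_eq_zero fun i hi => hort i (by simp [hi]) a (by simp)
        (fun h => ha (h ▸ hi))

theorem AbData.ks {p : ℕ} (Φ : FrobSystem W p) [IsAlgClosed W.K] (hp : 1 < p)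
    (hRH : ∀ Z : 𝒱.Obj, RiemannHyp Φ σ Z) (h : AbData W A σ F Ψ ξ S Q c r) : KS Φ 2 A := by
  classical
  obtain ⟨e, he, he1, he0⟩ := h.exists_eB
  have heh : IsHom (W.gr A) 0 e := kop_isHom (kop_of_rop he)
  have hid := h.e_idem he1 he0
  have hcomm : ∀ i, proj (W.isInternal A) i * e = e * proj (W.isInternal A) i := fun i =>
    heh.proj_comm (W.isInternal A) i
  set N := 2 * A.dim + 1 with hN
  -- the odd part
  set G : Module.End W.K (W.H A) := ∑ w ∈ (Finset.range N).filter Odd,
    proj (W.isInternal A) w * e with hG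
  set P : Module.End W.K (W.H A) := ∑ w ∈ (Finset.range N).filter (fun w => ¬ Odd w),
    proj (W.isInternal A) w * e with hP
  have hort : ∀ i j, i ≠ j → (proj (W.isInternal A) i * e) * (proj (W.isInternal A) j * e) = 0 := by
    intro i j hij
    rw [hcomm j, ← mul_assoc, mul_assoc (proj (W.isInternal A) i), hid, hcomm i, mul_assoc,
      proj_mul_ne _ hij, mul_zero]
  have hself : ∀ i, (proj (W.isInternal A) i * e) * (proj (W.isInternal A) i * e) =
      proj (W.isInternal A) i * e := by
    intro i
    calc (proj (W.isInternal A) i * e) * (proj (W.isInternal A) i * e)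
        = proj (W.isInternal A) i * (e * proj (W.isInternal A) i) * e := by
          simp only [mul_assoc]
      _ = (proj (W.isInternal A) i * proj (W.isInternal A) i) * (e * e) := by
          rw [← hcomm i]; simp only [mul_assoc]
      _ = proj (W.isInternal A) i * e := by rw [hid, proj_mul_proj]
  have hgood : IsGood W A 2 G := isGood_sum _ (fun w hw => by
    rw [Finset.mem_filter, Finset.mem_range] at hw
    exact h.good he1 he0 (by omega) hw.2) (fun i _ j _ hij => hort i j hij)
  have hPG : P + G = e := by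
    rw [hP, hG, add_comm, Finset.sum_filter_add_sum_filter_not, ← Finset.sum_mul,
      sum_proj (W.isInternal A) (N := N) (fun i hi => W.gr_eq_bot A i (by omega)), one_mul]
  have hPP : P * P = P := by
    have h1 : ∀ s : Finset ℕ, (∑ w ∈ s, proj (W.isInternal A) w * e) *
        (∑ w ∈ s, proj (W.isInternal A) w * e) = ∑ w ∈ s, proj (W.isInternal A) w * e := by
      intro s
      rw [Finset.sum_mul]
      refine Finset.sum_congr rfl fun i hi => ?_
      rw [Finset.mul_sum, Finset.sum_eq_single i (fun j _ hj => hort i j (Ne.symm hj))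
        (fun h => absurd hi h), hself]
    exact h1 _
  have hPapp : ∀ i, ∀ x ∈ W.gr A i, P x = if Odd i then 0 else e x := by
    intro i x hx
    have hex : e x ∈ W.gr A i := BB_gr _ (h.e_mem he1 he0 hx)
    rw [hP, LinearMap.sum_apply]
    by_cases hi : i < N
    · by_cases ho : Odd i
      · rw [if_pos ho]
        refine Finset.sum_eq_zero fun w hw => ?_
        rw [Finset.mem_filter] at hw
        rw [Module.End.mul_apply, proj_ne _ hex (fun h' : i = w => hw.2 (h' ▸ ho))]
      · rw [if_neg ho, Finset.sum_eq_single i]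
        · rw [Module.End.mul_apply, proj_same _ hex]
        · intro w _ hw
          rw [Module.End.mul_apply, proj_ne _ hex (Ne.symm hw)]
        · intro hw
          exact absurd (Finset.mem_filter.2 ⟨Finset.mem_range.2 hi, ho⟩) hw
    · rw [W.gr_eq_bot A i (by omega), Submodule.mem_bot] at hx
      rw [hx]
      simp
  have hadj : ∀ a b, W.tr A (P a * b) = W.tr A (a * P b) := by
    intro a b
    refine gr_induction (W.isInternal A) (p := fun a => W.tr A (P a * b) = W.tr A (a * P b))
      ?_ ?_ a
    · intro i a ha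
      refine gr_induction (W.isInternal A) (p := fun b => W.tr A (P a * b) = W.tr A (a * P b))
        ?_ ?_ b
      · intro j b hb
        have hea : e a ∈ W.gr A i := BB_gr _ (h.e_mem he1 he0 ha)
        have heb : e b ∈ W.gr A j := BB_gr _ (h.e_mem he1 he0 hb)
        rw [hPapp i a ha, hPapp j b hb]
        by_cases hij : i + j = 2 * A.dim
        · have hpar : Odd i ↔ Odd j := by
            have h1 : Even (i + j) := by rw [hij]; exact even_two_mul _
            rw [Nat.even_add] at h1
            rw [← Nat.not_even_iff_odd, ← Nat.not_even_iff_odd, not_iff_not]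
            exact h1
          by_cases ho : Odd i
          · rw [if_pos ho, if_pos (hpar.1 ho), zero_mul, mul_zero]
          · rw [if_neg ho, if_neg (fun h => ho (hpar.2 h)), h.e_adj he1 he0]
        · have z1 : ∀ x ∈ W.gr A i, ∀ y ∈ W.gr A j, W.tr A (x * y) = 0 := fun x hx y hy =>
            W.tr_eq_zero (W.mul_mem hx hy) hij
          rw [z1 _ (by split_ifs; exacts [Submodule.zero_mem _, hea]) _ hb,
            z1 _ ha _ (by split_ifs; exacts [Submodule.zero_mem _, heb])]
      · intro x y hx hy
        rw [mul_add, map_add, map_add, mul_add, map_add, hx, hy]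
    · intro x y hx hy
      rw [map_add, add_mul, add_mul, map_add, map_add, hx, hy]
  have hPh : IsHom (W.gr A) 0 P := IsHom.sum fun w _ => by
    have h1 : IsHom (W.gr A) 0 (proj (W.isInternal A) w) := isHom_scal _ _
    have h2 := h1.mul heh
    rwa [add_zero] at h2
  have hPr : ∀ v, P v ∈ algSp W A := by
    intro v
    refine gr_induction (W.isInternal A) (p := fun v => P v ∈ algSp W A) ?_ ?_ v
    · intro i x hx
      rw [hPapp i x hx]
      by_cases ho : Odd i
      · rw [if_pos ho]; exact Submodule.zero_mem _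
      · rw [if_neg ho]
        rw [Nat.not_odd_iff_even] at ho
        refine BB_ind (P := fun y => y ∈ algSp W A) ?_ (Submodule.zero_mem _)
          (fun _ _ => Submodule.add_mem _) (h.e_mem he1 he0 hx)
        intro l hl hb y hy
        exact span_le_algSp _ (h.bal_alg (by rw [hl.1]; exact ho) hl.2 hb hy)
    · intro x y hx hy
      rw [map_add]; exact Submodule.add_mem _ hx hy
  obtain ⟨κ, i1, i2, a, b, d, hD, hDP⟩ := exists_dfam hPP hPh hPh hadj hPr hPr
  have hR : (1 - e) ∈ KOp W A A 0 := Submodule.sub_mem _ (KOp.id A) (kop_of_rop he)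
  have hRrop : ROp W A 0 (1 - e) := by
    have h1 : ROp W A 0 ((1 : Module.End W.K (W.H A)) + (((-1 : ℚ) : ℚ) : W.K) • e) :=
      rop_opAlg.add (rop_one A) (rop_opAlg.smul (-1 : ℚ) he)
    have h2 : (1 : Module.End W.K (W.H A)) + (((-1 : ℚ) : ℚ) : W.K) • e = 1 - e := by
      have h3 : (((-1 : ℚ) : ℚ) : W.K) = -1 := by norm_num
      have h4 : (-1 : W.K) • e = -e := by
        apply LinearMap.ext
        intro x
        rw [LinearMap.smul_apply, neg_smul, one_smul, LinearMap.neg_apply]
      rw [h3, h4, ← sub_eq_add_neg]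
    rwa [h2] at h1
  exact ks_of_data Φ hp hRH (rop_mul0 h.psi_rop hRrop) hR (h.isSplit_e he1 he0) hgood hD
    (by rw [hDP, hPG]; abel)

end Pool.Agent.N181.Ab
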