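import Pool.Agent.N181.Ab.Proj

/-!
# The odd balanced classes on an abelian variety
-/

set_option autoImplicit false

open CategoryTheory AlgebraicGeometry Polynomial TensorProduct

universe u v

namespace Pool.Agent.N181.Ab

open Pool.Agent.H914 Pool.Agent.H914.VarClass Pool.Agent.H914.VarClass.Obj
  Pool.Agent.H914.WeilCohomology Pool.Agent.H281R3.HT Pool.Agent.W534 Pool.Agent.TH132.P
  Pool.Agent.R908 Pool.Agent.N181.Mod

/-- A space with a nondegenerate antisymmetric form has even dimension. -/
lemma even_of_nondeg {K V : Type*} [Field K] [CharZero K] [AddCommGroup V] [Module K V]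
    [FiniteDimensional K V] (β : V →ₗ[K] V →ₗ[K] K) (h1 : ∀ x y, β x y = -β y x)
    (h2 : ∀ x, (∀ y, β x y = 0) → x = 0) : 2 ∣ Module.finrank K V := by
  classical
  rw [← even_iff_two_dvd]
  let b := Module.finBasis K V
  let M : Matrix (Fin (Module.finrank K V)) (Fin (Module.finrank K V)) K :=
    Matrix.of fun i j => β (b i) (b j)
  have hM : M.transpose = -M := by
    ext i j
    exact h1 _ _
  have hdet : M.det ≠ 0 := by
    intro h0
    obtain ⟨v, hv, hv'⟩ := Matrix.exists_vecMul_eq_zero_iff.2 h0
    apply hv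
    have hx : ∑ i, v i • b i = 0 := by
      apply h2
      have h4 : β (∑ i, v i • b i) = 0 := by
        refine b.ext fun j => ?_
        have := congrFun hv' j
        simpa [Matrix.vecMul, dotProduct, M, LinearMap.sum_apply] using this
      intro y
      rw [h4]
      rfl
    have h3 := b.linearIndependent
    rw [Fintype.linearIndependent_iff] at h3
    exact funext (h3 v hx)
  by_contra hodd
  rw [Nat.not_even_iff_odd] at hodd
  have h3 : M.transpose.det = (-M).det := by rw [hM]
  rw [Matrix.det_transpose, Matrix.det_neg, Fintype.card_fin, hodd.neg_one_pow] at h3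
  have h4 : (2 : K) * M.det = 0 := by linear_combination h3
  exact hdet ((mul_eq_zero.1 h4).resolve_left two_ne_zero)

variable {k : Type u} [Field k] {𝒱 : VarClass k} {ops : CycleOps 𝒱}
  {W : WeilCohomology.{u, v} ops} {A : 𝒱.Obj} {σ : W.K →+* ℂ}
  {F Ψ : W.H A →ₐ[W.K] W.H A} {ξ : W.H A} {S : Finset W.K} {Q c : ℕ} {r : W.K}

/-- The correspondence of an external product. -/
lemma corr_ext_eq {X : 𝒱.Obj} {w : ℕ} (hw : w ≤ 2 * X.dim) {b x : W.H X}
    (hb : b ∈ W.gr X (2 * X.dim - w)) (hx : x ∈ W.gr X w) :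
    W.corr (ext W b x) = (W.tr X ∘ₗ LinearMap.mulRight W.K b).smulRight x := by
  apply gr_ext (W.isInternal X)
  intro i y hy
  rw [corr_apply, LinearMap.smulRight_apply, LinearMap.comp_apply, LinearMap.mulRight_apply]
  change W.push (snd X X) (W.map (fst X X) b * W.map (snd X X) x * W.map (fst X X) y) = _
  rw [mul_assoc, W.comm (W.map_mem (snd X X) hx) (W.map_mem (fst X X) hy), mul_smul_comm,
    ← mul_assoc, ← map_mul, map_smul, W.push_snd, smul_smul]
  by_cases hi : i = w
  · subst hi
    rw [W.comm hb hy, map_smul, smul_eq_mul, ← mul_assoc, ← pow_add]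
    congr 1
    have hev : Even (i * i + (2 * X.dim - i) * i) := by
      rw [← add_mul]
      refine Even.mul_right ?_ _
      rw [show i + (2 * X.dim - i) = 2 * X.dim by omega]
      exact even_two_mul _
    rw [hev.neg_one_pow, one_mul]
  · rw [W.tr_eq_zero (W.mul_mem hb hy) (by omega), W.tr_eq_zero (W.mul_mem hy hb) (by omega),
      mul_zero]

namespace AbData

variable (h : AbData W A σ F Ψ ξ S Q c r)
include h

section E

variable {e : Module.End W.K (W.H A)}
  (he1 : ∀ l, Lt S (2 * A.dim) l → Bal Q l → ∀ x ∈ HL F (W.gr A 1) l, e x = x)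
  (he0 : ∀ l, Lt S (2 * A.dim) l → ¬ Bal Q l → ∀ x ∈ HL F (W.gr A 1) l, e x = 0)

include he1 he0

lemma BB_nondeg {w : ℕ} (hw : w ≤ 2 * A.dim) {x : W.H A} (hx : x ∈ BB W A F S Q w)
    (h0 : ∀ y ∈ BB W A F S Q (2 * A.dim - w), W.tr A (x * y) = 0) : x = 0 := by
  apply W.nondeg
  intro y
  refine gr_induction (W.isInternal A) (p := fun y => W.tr A (x * y) = 0) ?_ ?_ y
  · intro i y hy
    by_cases hi : i = 2 * A.dim - w
    · subst hi
      rw [← e_BB he1 hx, h.e_adj he1 he0]
      exact h0 _ (h.e_mem he1 he0 hy)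
    · exact W.tr_eq_zero (W.mul_mem (BB_gr _ hx) hy) (by omega)
  · intro y y' hy hy'
    rw [mul_add, map_add, hy, hy', add_zero]

/-- Dual bases. -/
lemma exists_dual {w : ℕ} (hw : w ≤ 2 * A.dim) :
    ∃ (a : Fin (Module.finrank W.K (BB W A F S Q w)) → W.H A)
      (b : Fin (Module.finrank W.K (BB W A F S Q w)) → W.H A),
      (∀ i, a i ∈ BB W A F S Q w) ∧ (∀ i, b i ∈ BB W A F S Q (2 * A.dim - w)) ∧
      (∀ i j, W.tr A (a i * b j) = if i = j then 1 else 0) ∧
      ∀ x ∈ BB W A F S Q w, x = ∑ i, W.tr A (x * b i) • a i := by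
  classical
  set N := BB W A F S Q w with hN
  set N' := BB W A F S Q (2 * A.dim - w) with hN'
  set B := Module.finBasis W.K N with hB
  have hlin : LinearIndependent W.K fun i => (((W.tr A ∘ₗ LinearMap.mulLeft W.K
      (B i : W.H A)) ∘ₗ N'.subtype : Module.Dual W.K N')) := by
    rw [Fintype.linearIndependent_iff]
    intro s hs
    have h1 : (∑ i, s i • B i : N) = 0 := by
      apply Subtype.ext
      rw [Submodule.coe_zero]
      apply h.BB_nondeg he1 he0 hw (∑ i, s i • B i : N).2
      intro y hy
      have h3 := congrArg (fun f => f ⟨y, hy⟩) hs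
      simp only [LinearMap.sum_apply, LinearMap.smul_apply, LinearMap.comp_apply,
        Submodule.subtype_apply, LinearMap.mulLeft_apply, LinearMap.zero_apply] at h3
      rw [← h3]
      simp only [AddSubmonoidClass.coe_finsetSum, Submodule.coe_smul, Finset.sum_mul,
        smul_mul_assoc, map_sum, map_smul]
    exact Fintype.linearIndependent_iff.1 B.linearIndependent s h1
  obtain ⟨b, hb⟩ := exists_dual_vectors hlin
  have hb' : ∀ i j, W.tr A ((B i : W.H A) * (b j : W.H A)) = if i = j then 1 else 0 := hb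
  refine ⟨fun i => B i, fun i => b i, fun i => (B i).2, fun i => (b i).2, hb', ?_⟩
  intro x hx
  have h3 := congrArg Subtype.val (B.sum_repr ⟨x, hx⟩)
  simp only [AddSubmonoidClass.coe_finsetSum, Submodule.coe_smul] at h3
  have h4 : ∀ i, W.tr A (x * (b i : W.H A)) = B.repr ⟨x, hx⟩ i := by
    intro i
    conv_lhs => rw [← h3]
    rw [Finset.sum_mul, map_sum, Finset.sum_eq_single i]
    · rw [smul_mul_assoc, map_smul, hb', if_pos rfl, smul_eq_mul, mul_one]
    · intro j _ hj
      rw [smul_mul_assoc, map_smul, hb', if_neg hj, smul_zero]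
    · intro hi
      exact absurd (Finset.mem_univ _) hi
  rw [Finset.sum_congr rfl fun i _ => by rw [h4 i]]
  exact h3.symm

lemma finrank_le {w : ℕ} (hw : w ≤ 2 * A.dim) : Module.finrank W.K (BB W A F S Q w) ≤
    Module.finrank W.K (BB W A F S Q (2 * A.dim - w)) := by
  classical
  obtain ⟨a, b, ha, hb, hab, -⟩ := h.exists_dual he1 he0 hw
  have hlin : LinearIndependent W.K fun i => (⟨b i, hb i⟩ : BB W A F S Q (2 * A.dim - w)) := by
    rw [Fintype.linearIndependent_iff]
    intro s hs i
    have h1 := congrArg (fun x : BB W A F S Q (2 * A.dim - w) => W.tr A (a i * (x : W.H A))) hs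
    simp only [AddSubmonoidClass.coe_finsetSum, Submodule.coe_smul, Finset.mul_sum,
      mul_smul_comm, map_sum, map_smul, hab, Submodule.coe_zero, mul_zero, map_zero,
      smul_eq_mul] at h1
    simpa using h1
  simpa using hlin.fintype_card_le_finrank

lemma finrank_eq {w : ℕ} (hw : w ≤ 2 * A.dim) : Module.finrank W.K (BB W A F S Q w) =
    Module.finrank W.K (BB W A F S Q (2 * A.dim - w)) := by
  refine le_antisymm (h.finrank_le he1 he0 hw) ?_
  have h1 := h.finrank_le he1 he0 (w := 2 * A.dim - w) (by omega)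
  rwa [show 2 * A.dim - (2 * A.dim - w) = w by omega] at h1

/-- **The dimensions of the odd balanced parts are even.** -/
theorem two_dvd {w : ℕ} (hw : w ≤ 2 * A.dim) (hodd : Odd w) :
    2 ∣ Module.finrank W.K (BB W A F S Q w) := by
  have key : ∀ w ≤ A.dim, Odd w → 2 ∣ Module.finrank W.K (BB W A F S Q w) := by
    intro w hw hodd
    set N := BB W A F S Q w with hN
    let β : N →ₗ[W.K] N →ₗ[W.K] W.K :=
      LinearMap.mk₂ W.K (fun x y => W.tr A (ξ ^ (A.dim - w) * (x : W.H A) * (y : W.H A)))
        (fun x x' y => by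
          rw [Submodule.coe_add, mul_add, add_mul, map_add])
        (fun s x y => by
          rw [Submodule.coe_smul, mul_smul_comm, smul_mul_assoc, map_smul])
        (fun x y y' => by rw [Submodule.coe_add, mul_add, map_add])
        (fun s x y => by rw [Submodule.coe_smul, mul_smul_comm, map_smul])
    refine even_of_nondeg β ?_ ?_
    · intro x y
      change W.tr A (ξ ^ (A.dim - w) * (x : W.H A) * (y : W.H A)) =
        -W.tr A (ξ ^ (A.dim - w) * (y : W.H A) * (x : W.H A))
      rw [mul_assoc, W.comm (BB_gr _ x.2) (BB_gr _ y.2), (hodd.mul hodd).neg_one_pow,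
        neg_one_smul, mul_neg, map_neg, mul_assoc]
    · intro x hx
      apply Subtype.ext
      rw [Submodule.coe_zero]
      apply (h.lef w hw).1 _ (BB_gr _ x.2)
      rw [lef_pow]
      have h1 : ξ ^ (A.dim - w) * (x : W.H A) ∈ BB W A F S Q (2 * A.dim - w) := by
        have h2 := BB_mul (h.xi_pow (A.dim - w)) x.2
        rwa [show 2 * (A.dim - w) + w = 2 * A.dim - w by omega] at h2
      apply h.BB_nondeg he1 he0 (w := 2 * A.dim - w) (by omega) h1
      intro y hy
      rw [show 2 * A.dim - (2 * A.dim - w) = w by omega] at hy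
      exact hx ⟨y, hy⟩
  by_cases h1 : w ≤ A.dim
  · exact key w h1 hodd
  · rw [h.finrank_eq he1 he0 hw]
    exact key _ (by omega) (Nat.Even.sub_odd hw (even_two_mul _) hodd)

/-- **The odd balanced part is good.** -/
theorem good {w : ℕ} (hw : w ≤ 2 * A.dim) (hodd : Odd w) :
    IsGood W A 2 (proj (W.isInternal A) w * e) := by
  classical
  obtain ⟨a, b, ha, hb, hab, hexp⟩ := h.exists_dual he1 he0 hw
  set E : Fin (Module.finrank W.K (BB W A F S Q w)) → Fin (Module.finrank W.K
    (BB W A F S Q w)) → Module.End W.K (W.H A) := fun i j =>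
      (W.tr A ∘ₗ LinearMap.mulRight W.K (b j)).smulRight (a i) with hE
  have hEapp : ∀ i j x, E i j x = W.tr A (x * b j) • a i := fun i j x => rfl
  have hU : IsUnits E := by
    intro i j j' l
    apply LinearMap.ext
    intro x
    rw [Module.End.mul_apply, hEapp j' l, map_smul, hEapp i j, hab]
    by_cases hj : j = j'
    · subst hj
      rw [if_pos rfl, if_pos rfl, one_smul, hEapp]
    · rw [if_neg (Ne.symm hj), if_neg hj, zero_smul, smul_zero, LinearMap.zero_apply]
  have hK : ∀ i j, E i j ∈ KOp W A A 0 := by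
    intro i j
    rw [hE]
    dsimp only
    rw [← corr_ext_eq hw (BB_gr _ (hb j)) (BB_gr _ (ha i)), mem_KOp_iff]
    refine ⟨_, ?_, rfl⟩
    rw [add_zero]
    refine BB_ind (P := fun y => ext W y (a i) ∈ spanCycles W (A.prod A) (A.dim : ℕ))
      ?_ ?_ ?_ (hb j)
    · intro l hl hbl y hy
      refine BB_ind (P := fun x => ext W y x ∈ spanCycles W (A.prod A) (A.dim : ℕ))
        ?_ ?_ ?_ (ha i)
      · intro l' hl' hbl' x hx
        have h1 := h.ext_bal (2 * A.dim) l l' (by rw [hl.1, hl'.1]; omega) (even_two_mul _)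
          hl.2 hl'.2 hbl hbl' y hy x hx
        rwa [show 2 * A.dim / 2 = A.dim by omega] at h1
      · change W.map (fst A A) y * W.map (snd A A) 0 ∈ _
        rw [map_zero, mul_zero]
        exact Submodule.zero_mem _
      · intro x x' hx hx'
        change W.map (fst A A) y * W.map (snd A A) (x + x') ∈ _
        rw [map_add, mul_add]
        exact Submodule.add_mem _ hx hx'
    · change W.map (fst A A) 0 * W.map (snd A A) (a i) ∈ _
      rw [map_zero, zero_mul]
      exact Submodule.zero_mem _
    · intro x x' hx hx'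
      change W.map (fst A A) (x + x') * W.map (snd A A) (a i) ∈ _
      rw [map_add, add_mul]
      exact Submodule.add_mem _ hx hx'
  have hsum : ∑ i, E i i = proj (W.isInternal A) w * e := by
    apply gr_ext (W.isInternal A)
    intro i x hx
    rw [LinearMap.sum_apply, Module.End.mul_apply]
    have hex := h.e_mem he1 he0 hx
    by_cases hi : i = w
    · subst hi
      rw [proj_same _ (BB_gr _ hex)]
      conv_rhs => rw [hexp _ hex]
      refine Finset.sum_congr rfl fun j _ => ?_
      rw [hEapp, h.e_adj he1 he0, e_BB he1 (hb j)]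
    · rw [proj_ne _ (BB_gr _ hex) hi]
      refine Finset.sum_eq_zero fun j _ => ?_
      rw [hEapp, W.tr_eq_zero (W.mul_mem hx (BB_gr _ (hb j))) (by omega), zero_smul]
  rw [← hsum]
  exact IsGood.units (h.two_dvd he1 he0 hw hodd) hU hK

end E

end AbData

end Pool.Agent.N181.Ab
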