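import Pool.Agent.N181.Ab.Iota
import Pool.Agent.N181.Mod.Auto

/-!
# Products of dual eigenvectors in the first cohomology of an abelian variety
-/

set_option autoImplicit false

open CategoryTheory AlgebraicGeometry Polynomial TensorProduct

universe u v

namespace Pool.Agent.N181.Ab

open Pool.Agent.H914 Pool.Agent.H914.VarClass Pool.Agent.H914.VarClass.Obj
  Pool.Agent.H914.WeilCohomology Pool.Agent.H281R3.HT Pool.Agent.W534 Pool.Agent.TH132.P
  Pool.Agent.R908 Pool.Agent.N181.Mod

variable {k : Type u} [Field k] {𝒱 : VarClass k} {ops : CycleOps 𝒱}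
  {W : WeilCohomology.{u, v} ops} {A : 𝒱.Obj} {m : A.prod A ⟶ A}

/-- The projectors to the degrees are rational algebraic correspondences. -/
theorem rop_proj_ab (hA : IsAbelianLike W A m) (i : ℕ) :
    ROp W A 0 (proj (W.isInternal A) i) := by
  classical
  by_cases hi : i ≤ 2 * A.dim
  swap
  · have h0 : proj (W.isInternal A) i = 0 := by
      apply LinearMap.ext
      intro x
      have h1 := proj_mem (W.isInternal A) i x
      rw [W.gr_eq_bot A i (by omega)] at h1
      exact (Submodule.mem_bot _).1 h1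
    rw [h0]
    exact rop_opAlg.zero 0
  set f : A ⟶ A := diag A ≫ m with hf
  have hf1 : ∀ x ∈ W.gr A 1, W.map f x = (2 : W.K) • x := by
    intro x hx
    have e1 : diag A ≫ fst A A = 𝟙 A := Obj.lift_fst _ _
    have e2 : diag A ≫ snd A A = 𝟙 A := Obj.lift_snd _ _
    rw [hf, W.map_comp, hA.add x hx, map_add, ← W.map_comp, ← W.map_comp, e1, e2, W.map_id,
      two_smul]
  have hfi : ∀ i, ∀ x ∈ W.gr A 1 ^ i, W.map f x = ((2 : W.K) ^ i) • x := by
    intro i
    induction i with
    | zero =>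
      intro x hx
      rw [pow_zero, Submodule.mem_one] at hx
      obtain ⟨c, rfl⟩ := hx
      rw [AlgHom.commutes, pow_zero, one_smul]
    | succ i ih =>
      intro x hx
      rw [pow_succ'] at hx
      refine Submodule.mul_induction_on hx ?_ ?_
      · intro a ha b hb
        rw [map_mul, hf1 a ha, ih b hb, smul_mul_smul_comm, pow_succ']
      · intro a b ha hb
        rw [map_add, ha, hb, smul_add]
  set v : ℕ → ℚ := fun j => (2 : ℚ) ^ j with hv
  have hinj : Set.InjOn v (Finset.range (2 * A.dim + 1) : Set ℕ) := by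
    intro i _ j _ hij
    have h1 : (2 : ℚ) ^ i = (2 : ℚ) ^ j := hij
    have h2 : ((2 ^ i : ℕ) : ℚ) = ((2 ^ j : ℕ) : ℚ) := by push_cast; exact h1
    exact Nat.pow_right_injective le_rfl (Nat.cast_injective h2)
  have key : proj (W.isInternal A) i = ev (W.map f).toLinearMap
      (Lagrange.basis (Finset.range (2 * A.dim + 1)) v i) := by
    apply gr_ext (W.isInternal A)
    intro j x hx
    have h1 : (W.map f).toLinearMap x = ((v j : ℚ) : W.K) • x := by
      rw [hv]
      push_cast
      exact hfi j x (hA.gen j hx)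
    have h5 : ((v j : ℚ) : W.K) = algebraMap ℚ W.K (v j) := (eq_ratCast _ _).symm
    rw [ev_apply, aeval_apply_eig h1, h5, Polynomial.eval_map, Polynomial.eval₂_at_apply]
    by_cases hj : 2 * A.dim < j
    · rw [W.gr_eq_bot A j hj, Submodule.mem_bot] at hx
      rw [hx, map_zero, smul_zero]
    · by_cases hij : i = j
      · subst hij
        rw [Lagrange.eval_basis_self hinj (Finset.mem_range.2 (by omega)), map_one, one_smul,
          proj_same _ hx]
      · rw [Lagrange.eval_basis_of_ne hij (Finset.mem_range.2 (by omega)), map_zero, zero_smul,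
          proj_ne _ hx (Ne.symm hij)]
  rw [key]
  exact rop_ev (rop_map f) _

variable {p : ℕ} {Φ : FrobSystem W p} {D : A.Cycles}

lemma pow_top_ne (hHL : HardLefschetz W A D) (h1 : (1 : W.H A) ≠ 0) :
    W.cl A D ^ A.dim ≠ 0 := by
  intro h0
  apply h1
  apply (hHL 0 (Nat.zero_le _)).1 1 (W.one_mem A)
  rw [Nat.sub_zero]
  have h2 : ∀ (n : ℕ) (x : W.H A), ((LinearMap.mulLeft W.K (W.cl A D)) ^ n) x =
      W.cl A D ^ n * x := by
    intro n x
    rw [LinearMap.pow_mulLeft, LinearMap.mulLeft_apply]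
  rw [h2, h0, zero_mul]

lemma cycOps_le' (X : 𝒱.Obj) : Submodule.span W.K (cycOps W X) ≤ KOp W X X 0 := by
  refine Submodule.span_le.2 ?_
  rintro _ ⟨z, hz, rfl⟩
  exact KOp.gen (by rw [add_zero]) hz

section Pair

variable (hA : IsAbelian Φ A m D) {s : ℕ} (hs : 0 < s) {q : W.K} (hq : q ≠ 0)
  (hD : W.map (W534.iter (Φ.Fr A) s) (W.cl A D) = q • W.cl A D)

include hA hs in
/-- Rank one operators given by eigenvectors are algebraic. -/
lemma kop_smulRight {α : W.K} {x : W.H A} (hx : x ∈ W.gr A 1)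
    (hxF : W.map (W534.iter (Φ.Fr A) s) x = α • x) {f : W.H A →ₗ[W.K] W.K}
    (hf : IsDeg W A f 1) (hfF : ∀ v ∈ W.gr A 1, f (W.map (W534.iter (Φ.Fr A) s) v) = α * f v) :
    f.smulRight x ∈ KOp W A A 0 := by
  have hFs : frobAll Φ A ^ s = (W.map (W534.iter (Φ.Fr A) s)).toLinearMap :=
    (map_iter_pow (Φ.Fr A) s).symm
  obtain ⟨ψ, hψ, h1⟩ := hA.tate s hs (f.smulRight x)
    (fun v _ => by
      rw [LinearMap.smulRight_apply]
      exact Submodule.smul_mem _ _ hx)
    (fun v hv => by
      rw [hFs, LinearMap.smulRight_apply, LinearMap.smulRight_apply, map_smul]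
      change f (W.map (W534.iter (Φ.Fr A) s) v) • x = f v • W.map (W534.iter (Φ.Fr A) s) x
      rw [hfF v hv, hxF, smul_smul, mul_comm])
  have h2 : f.smulRight x = ψ ∘ₗ proj (W.isInternal A) 1 := by
    apply gr_ext (W.isInternal A)
    intro i a ha
    rw [LinearMap.comp_apply]
    by_cases hi : i = 1
    · subst hi
      rw [proj_same _ ha, h1 a ha]
    · rw [proj_ne _ ha hi, map_zero, LinearMap.smulRight_apply, hf i hi a ha, zero_smul]
  rw [h2]
  exact KOp.cast (KOp.comp (cycOps_le' A hψ) (kop_of_rop (rop_proj_ab hA.abelianLike 1)))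
    (add_zero 0)

include hA hs hq hD in
/-- **Products of dual eigenvectors are algebraic on `A × A`.** -/
theorem ext_pair {α β : W.K} (hαβ : α * β = q) {x y : W.H A} (hx : x ∈ W.gr A 1)
    (hxF : W.map (W534.iter (Φ.Fr A) s) x = α • x) (hy : y ∈ W.gr A 1)
    (hyF : W.map (W534.iter (Φ.Fr A) s) y = β • y) :
    ext W x y ∈ spanCycles W (A.prod A) (1 : ℕ) := by
  by_cases h1 : (1 : W.H A) = 0
  · have hx0 : x = 0 := by rw [← mul_one x, h1, mul_zero]
    change W.map (fst A A) x * W.map (snd A A) y ∈ _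
    rw [hx0, map_zero, zero_mul]
    exact Submodule.zero_mem _
  have hne := pow_top_ne hA.lefschetz h1
  have hD2 : W.cl A D ∈ W.gr A 2 := W.cl_mem hA.divisor
  obtain ⟨f, hf, hfy⟩ := exists_io hA.abelianLike h1 hD2 hne hy
  have hgr : ∀ i, ∀ a ∈ W.gr A i, W.map (W534.iter (Φ.Fr A) s) a ∈ W.gr A i :=
    fun i a ha => W.map_mem _ ha
  have hα : α ≠ 0 := fun h0 => hq (by rw [← hαβ, h0, zero_mul])
  have h2 := io_frob hA.abelianLike h1 (F := W.map (W534.iter (Φ.Fr A) s)) hgr hf 2
    (W.cl A D) (hA.abelianLike.gen 2 hD2)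
  rw [hD, map_smul, hfy] at h2
  have h3 : io W m (f ∘ₗ (W.map (W534.iter (Φ.Fr A) s)).toLinearMap) (W.cl A D) = α • y := by
    apply W534.map_iter_injective Φ s
    rw [h2, map_smul, hyF, smul_smul, hαβ]
  have hfF : ∀ v ∈ W.gr A 1, f (W.map (W534.iter (Φ.Fr A) s) v) = α * f v := by
    obtain ⟨ε, hε, hε1⟩ := exists_eps h1
    set g : W.H A →ₗ[W.K] W.K := f ∘ₗ (W.map (W534.iter (Φ.Fr A) s)).toLinearMap +
      (-α) • f with hg
    have hgd : IsDeg W A g 1 := by
      intro i hi a ha
      rw [hg, LinearMap.add_apply, LinearMap.smul_apply, LinearMap.comp_apply, hf i hi a ha,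
        smul_zero, add_zero]
      exact hf i hi _ (hgr i a ha)
    have h4 : io W m g (W.cl A D) = 0 := by
      change sl W g (W.map m (W.cl A D)) = 0
      rw [hg, sl_add, sl_smul, LinearMap.add_apply, LinearMap.smul_apply]
      change io W m (f ∘ₗ (W.map (W534.iter (Φ.Fr A) s)).toLinearMap) (W.cl A D) +
        (-α) • io W m f (W.cl A D) = 0
      rw [h3, hfy, neg_smul, add_neg_cancel]
    intro v hv
    have h5 := io_inj hε hε1 hgd hA.abelianLike (hA.abelianLike.gen 2 hD2) hD2 hne h4 v hv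
    rw [hg, LinearMap.add_apply, LinearMap.smul_apply, smul_eq_mul] at h5
    change f (W.map (W534.iter (Φ.Fr A) s) v) + -α * f v = 0 at h5
    linear_combination h5
  have hk := kop_smulRight hA hs hx hxF hf hfF
  have h6 := extOp_smulRight f x (W.map m (W.cl A D))
  have h7 : sl W f (W.map m (W.cl A D)) = y := hfy
  rw [h7] at h6
  rw [← h6]
  exact KOp.span0 (kop_ext (Y := A) hk) 1 ((sysA W).map m
    (alg_mem_span ⟨D, hA.divisor, rfl⟩))

end Pair

end Pool.Agent.N181.Ab
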