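import Pool.Agent.N181.Ab.Data

/-!
# The projector onto the balanced classes
-/

set_option autoImplicit false

open CategoryTheory AlgebraicGeometry Polynomial TensorProduct

universe u v

namespace Pool.Agent.N181.Ab

open Pool.Agent.H914 Pool.Agent.H914.VarClass Pool.Agent.H914.VarClass.Obj
  Pool.Agent.H914.WeilCohomology Pool.Agent.H281R3.HT Pool.Agent.W534 Pool.Agent.TH132.P
  Pool.Agent.R908 Pool.Agent.N181.Mod

variable {k : Type u} [Field k] {𝒱 : VarClass k} {ops : CycleOps 𝒱}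
  {W : WeilCohomology.{u, v} ops} {A : 𝒱.Obj} {σ : W.K →+* ℂ}
  {F Ψ : W.H A →ₐ[W.K] W.H A} {ξ : W.H A} {S : Finset W.K} {Q c : ℕ} {r : W.K}

/-- The lists of length at most `n` with entries in `S`. -/
def Lt {K : Type*} (S : Finset K) (n : ℕ) (l : List K) : Prop := l.length ≤ n ∧ ∀ a ∈ l, a ∈ S

/-- The balanced classes of degree `i`. -/
def BB (W : WeilCohomology.{u, v} ops) (A : 𝒱.Obj) (F : W.H A →ₐ[W.K] W.H A)
    (S : Finset W.K) (Q i : ℕ) : Submodule W.K (W.H A) :=
  ⨆ (l : List W.K) (_ : Ls S i l ∧ Bal Q l), HL F (W.gr A 1) l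

lemma HL_le_BB {l : List W.K} (hl : ∀ a ∈ l, a ∈ S) (hb : Bal Q l) :
    HL F (W.gr A 1) l ≤ BB W A F S Q l.length :=
  le_iSup₂_of_le l ⟨⟨rfl, hl⟩, hb⟩ le_rfl

lemma BB_ind {i : ℕ} {P : W.H A → Prop} (h1 : ∀ l, Ls S i l → Bal Q l →
    ∀ x ∈ HL F (W.gr A 1) l, P x) (h0 : P 0) (hadd : ∀ x y, P x → P y → P (x + y)) {x : W.H A}
    (hx : x ∈ BB W A F S Q i) : P x := by
  refine Submodule.iSup_induction (fun l => ⨆ (_ : Ls S i l ∧ Bal Q l), HL F (W.gr A 1) l)
    (motive := P) hx ?_ h0 hadd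
  intro l x hx
  by_cases hP : Ls S i l ∧ Bal Q l
  · rw [iSup_pos hP] at hx
    exact h1 l hP.1 hP.2 x hx
  · rw [iSup_neg hP, Submodule.mem_bot] at hx
    rw [hx]
    exact h0

lemma BB_gr (i : ℕ) : BB W A F S Q i ≤ W.gr A i := fun x hx =>
  BB_ind (P := fun x => x ∈ W.gr A i) (fun l hl _ x hx => by
    rw [← hl.1]; exact HL_gr F l hx) (Submodule.zero_mem _)
    (fun _ _ => Submodule.add_mem _) hx

lemma BB_mul {i j : ℕ} {x y : W.H A} (hx : x ∈ BB W A F S Q i) (hy : y ∈ BB W A F S Q j) :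
    x * y ∈ BB W A F S Q (i + j) := by
  refine BB_ind (P := fun x => x * y ∈ BB W A F S Q (i + j)) ?_ ?_ ?_ hx
  · intro l hl hb x hx
    refine BB_ind (P := fun y => x * y ∈ BB W A F S Q (i + j)) ?_ ?_ ?_ hy
    · intro l' hl' hb' y hy
      have h1 := HL_le_BB (W := W) (A := A) (F := F) (Q := Q) (S := S) (l := l ++ l') (by
        intro a ha
        rcases List.mem_append.1 ha with ha | ha
        · exact hl.2 a ha
        · exact hl'.2 a ha) (hb.append hb')
      rw [List.length_append, hl.1, hl'.1, HL_append] at h1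
      exact h1 (Submodule.mul_mem_mul hx hy)
    · rw [mul_zero]; exact Submodule.zero_mem _
    · intro a b ha hb
      rw [mul_add]; exact Submodule.add_mem _ ha hb
  · rw [zero_mul]; exact Submodule.zero_mem _
  · intro a b ha hb
    rw [add_mul]; exact Submodule.add_mem _ ha hb

namespace AbData

variable (h : AbData W A σ F Ψ ξ S Q c r)
include h

lemma psi_HL {l : List W.K} : ∀ x ∈ HL F (W.gr A 1) l, Ψ x = tr c l • x := by
  refine HL_apply (g := fun a => a + (c : W.K)) fun a _ x hx => ?_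
  obtain ⟨h1, h2⟩ := mem_U.1 hx
  rw [h.psi x h1, h2, add_smul]

lemma gr_le (i : ℕ) : W.gr A i ≤ ⨆ (l : List W.K) (_ : Ls S i l), HL F (W.gr A 1) l :=
  (h.ggen i).trans (pow_le_HL h.top i)

lemma gr_ind {i : ℕ} {P : W.H A → Prop} (h1 : ∀ l, Ls S i l → ∀ x ∈ HL F (W.gr A 1) l, P x)
    (h0 : P 0) (hadd : ∀ x y, P x → P y → P (x + y)) {x : W.H A}
    (hx : x ∈ W.gr A i) : P x := by
  refine Submodule.iSup_induction (fun l => ⨆ (_ : Ls S i l), HL F (W.gr A 1) l)
    (motive := P) (h.gr_le i hx) ?_ h0 hadd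
  intro l x hx
  by_cases hP : Ls S i l
  · rw [iSup_pos hP] at hx
    exact h1 l hP x hx
  · rw [iSup_neg hP, Submodule.mem_bot] at hx
    rw [hx]
    exact h0

/-- Induction. -/
lemma ind {P : W.H A → Prop} (h1 : ∀ l, Lt S (2 * A.dim) l → ∀ x ∈ HL F (W.gr A 1) l, P x)
    (h0 : P 0) (hadd : ∀ x y, P x → P y → P (x + y)) (x : W.H A) : P x := by
  refine gr_induction (W.isInternal A) (p := P) ?_ (fun a b => hadd a b) x
  intro i x hx
  by_cases hi : i ≤ 2 * A.dim
  · exact h.gr_ind (fun l hl x hx => h1 l ⟨hl.1.le.trans hi, hl.2⟩ x hx) h0 hadd hx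
  · rw [W.gr_eq_bot A i (by omega), Submodule.mem_bot] at hx
    rw [hx]
    exact h0

lemma ext_HL {V : Type*} [AddCommGroup V] [Module W.K V] {f g : W.H A →ₗ[W.K] V}
    (h1 : ∀ l, Lt S (2 * A.dim) l → ∀ x ∈ HL F (W.gr A 1) l, f x = g x) : f = g := by
  apply LinearMap.ext
  refine h.ind (P := fun x => f x = g x) h1 (by rw [map_zero, map_zero]) ?_
  intro x y hx hy
  rw [map_add, map_add, hx, hy]

lemma xi_bal : ξ ∈ BB W A F S Q 2 := by
  have h1 := mem_of_eig (ψ := F.toLinearMap) (P := Ls S 2) (M := fun l => HL F (W.gr A 1) l)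
    (μ := fun l => (l.map id).prod) (fun l _ x hx =>
      HL_apply (Ψ := F) (g := id) (fun a _ x hx => (mem_U.1 hx).2) x hx)
    (h.gr_le 2 h.xi) h.xi_eig
  refine (iSup₂_le fun l hl => ?_ : (⨆ (l : List W.K) (_ : Ls S 2 l ∧ (l.map id).prod =
    (Q : W.K)), HL F (W.gr A 1) l) ≤ BB W A F S Q 2) h1
  obtain ⟨⟨hl1, hl2⟩, hl3⟩ := hl
  refine le_iSup₂_of_le l ⟨⟨hl1, hl2⟩, ?_⟩ le_rfl
  match l, hl1, hl2, hl3 with
  | [a, b], _, hl2, hl3 =>
    have ha := hl2 a List.mem_cons_self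
    have hb : b = du Q a := by
      rw [List.map_id, List.prod_cons, List.prod_cons, List.prod_nil, mul_one] at hl3
      rw [du, ← hl3, mul_div_cancel_left₀ _ (h.wset.ne ha)]
    rw [hb]
    exact h.wset.bal_pair ha

lemma xi_pow (n : ℕ) : ξ ^ n ∈ BB W A F S Q (2 * n) := by
  induction n with
  | zero =>
    rw [pow_zero, mul_zero]
    refine HL_le_BB (l := []) (by simp) bal_nil ?_
    rw [HL_nil, Submodule.mem_one]
    exact ⟨1, map_one _⟩
  | succ n ih =>
    rw [pow_succ, show 2 * (n + 1) = 2 * n + 2 by ring]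
    exact BB_mul ih h.xi_bal

omit h in
lemma lef_pow (n : ℕ) (x : W.H A) : ((LinearMap.mulLeft W.K ξ) ^ n) x = ξ ^ n * x := by
  rw [LinearMap.pow_mulLeft, LinearMap.mulLeft_apply]

lemma tr_top (h1 : (1 : W.H A) ≠ 0) : W.tr A (ξ ^ A.dim) ≠ 0 := by
  intro h0
  apply h1
  apply (h.lef 0 (Nat.zero_le _)).1 1 (W.one_mem A)
  rw [Nat.sub_zero, lef_pow, mul_one]
  exact eq_zero_of_top (BB_gr _ (h.xi_pow A.dim)) h0

/-- **The lists with nonzero trace are balanced.** -/
theorem bal_of_tr {l : List W.K} (hl : ∀ a ∈ l, a ∈ S) {x : W.H A}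
    (hx : x ∈ HL F (W.gr A 1) l) (h0 : W.tr A x ≠ 0) : Bal Q l := by
  have h1 : (1 : W.H A) ≠ 0 := by
    intro h1
    apply h0
    rw [← mul_one x, h1, mul_zero, map_zero]
  have hlen : l.length = 2 * A.dim := by
    by_contra hne
    exact h0 (W.tr_eq_zero (HL_gr F l hx) hne)
  -- a balanced list
  obtain ⟨l₀, hl₀, hb₀, y, hy, hy0⟩ : ∃ l₀, Ls S (2 * A.dim) l₀ ∧ Bal Q l₀ ∧
      ∃ y ∈ HL F (W.gr A 1) l₀, W.tr A y ≠ 0 := by
    by_contra hcon
    push Not at hcon
    apply h.tr_top h1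
    exact BB_ind (P := fun x => W.tr A x = 0) (fun l hl hb x hx => hcon l hl hb x hx)
      (map_zero _) (fun x y hx hy => by rw [map_add, hx, hy, add_zero]) (h.xi_pow A.dim)
  have hxg : x ∈ W.gr A (2 * A.dim) := by rw [← hlen]; exact HL_gr F l hx
  have hyg : y ∈ W.gr A (2 * A.dim) := by rw [← hl₀.1]; exact HL_gr F l₀ hy
  have h2 : W.tr A y • x - W.tr A x • y = 0 := by
    apply eq_zero_of_top (Submodule.sub_mem _ (Submodule.smul_mem _ _ hxg)
      (Submodule.smul_mem _ _ hyg))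
    rw [map_sub, map_smul, map_smul, smul_eq_mul, smul_eq_mul, mul_comm, sub_self]
  have h3 := congrArg Ψ h2
  rw [map_sub, map_smul, map_smul, map_zero, h.psi_HL x hx, h.psi_HL y hy, sub_eq_zero] at h3
  rw [sub_eq_zero] at h2
  have h4 : tr c l • (W.tr A y • x) = tr c l₀ • (W.tr A y • x) := by
    rw [smul_comm, h3, smul_comm, ← h2]
  have hx0 : x ≠ 0 := fun h0' => h0 (by rw [h0', map_zero])
  have h5 : W.tr A y • x ≠ 0 := smul_ne_zero hy0 hx0
  have h6 : tr c l = tr c l₀ := smul_left_injective W.K h5 h4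
  have h7 := h.gen l l₀ hlen.le hl₀.1.le hl hl₀.2 h6
  exact hb₀.perm h7.symm

omit h in
lemma Bal.cancel' {l l' : List W.K} (h1 : Bal Q (l ++ l')) (h2 : Bal Q l) : Bal Q l' :=
  Ab.Bal.cancel (h1.perm List.perm_append_comm) h2

omit h in
lemma finite_lists (S : Finset W.K) (n : ℕ) : {l : List W.K | Lt S n l}.Finite := by
  have h1 := (List.finite_length_le (↥S) n).image (List.map Subtype.val)
  refine h1.subset ?_
  rintro l ⟨hl, hS⟩
  refine ⟨l.attach.map fun a => ⟨a.1, hS a.1 a.2⟩, ?_, ?_⟩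
  · change (l.attach.map _).length ≤ n
    rwa [List.length_map, List.length_attach]
  · rw [List.map_map]
    exact List.attach_map_subtype_val l

lemma int_tr {l : List W.K} (hl : ∀ a ∈ l, a ∈ S) : IsIntegral ℚ (tr c l) := by
  induction l with
  | nil => rw [tr_nil]; exact isIntegral_one
  | cons a l ih =>
    rw [tr_cons]
    refine IsIntegral.mul (IsIntegral.add (h.wset.int (hl a List.mem_cons_self)) ?_)
      (ih fun b hb => hl b (List.mem_cons_of_mem _ hb))
    have := isIntegral_algebraMap (R := ℚ) (A := W.K) (x := (c : ℚ))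
    rwa [map_natCast] at this

omit h in
lemma ev_eig {V : Type*} [AddCommGroup V] [Module W.K V] {φ : Module.End W.K V} {x : V}
    {a : W.K} (hx : φ x = a • x) (u : ℚ[X]) : ev φ u x = aeval a u • x := by
  rw [ev_apply, aeval_apply_eig hx, eval_map_algebraMap]

/-- **The projector onto the balanced classes.** -/
theorem exists_eB [IsAlgClosed W.K] : ∃ e : Module.End W.K (W.H A), ROp W A 0 e ∧
    (∀ l, Lt S (2 * A.dim) l → Bal Q l → ∀ x ∈ HL F (W.gr A 1) l, e x = x) ∧
    ∀ l, Lt S (2 * A.dim) l → ¬ Bal Q l → ∀ x ∈ HL F (W.gr A 1) l, e x = 0 := by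
  classical
  set spec : Finset W.K := (finite_lists S (2 * A.dim)).toFinset.image (tr c) with hspec
  obtain ⟨u, hu⟩ := exists_rat_sep spec
    (fun a => ∃ l, Lt S (2 * A.dim) l ∧ Bal Q l ∧ tr c l = a)
    (by
      intro a ha
      obtain ⟨l, hl, rfl⟩ := Finset.mem_image.1 ha
      exact h.int_tr ((Set.Finite.mem_toFinset _).1 hl).2)
    (by
      rintro a - b hb ⟨l, hl, hbl, rfl⟩ hBb heq
      obtain ⟨l', hl', rfl⟩ := Finset.mem_image.1 hb
      have hl0 := (Set.Finite.mem_toFinset _).1 hl'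
      have hl'' : Lt S (2 * A.dim) l' := hl0
      exact hBb ⟨l', hl'', h.wset.bal_conj h.gen hl.2 hl''.2 hl.1 hl''.1 hbl heq.symm, rfl⟩)
  have hmem : ∀ l, Lt S (2 * A.dim) l → tr c l ∈ spec := fun l hl =>
    Finset.mem_image.2 ⟨l, (Set.Finite.mem_toFinset _).2 hl, rfl⟩
  refine ⟨ev Ψ.toLinearMap u, rop_ev h.psi_rop u, ?_, ?_⟩
  · intro l hl hb x hx
    rw [ev_eig (h.psi_HL x hx), (hu _ (hmem l hl)).1 ⟨l, hl, hb, rfl⟩, one_smul]
  · intro l hl hb x hx
    rw [ev_eig (h.psi_HL x hx), (hu _ (hmem l hl)).2, zero_smul]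
    rintro ⟨l', hl', hb', heq⟩
    exact hb (hb'.perm (h.gen l' l hl'.1 hl.1 hl'.2 hl.2 heq))

section E

variable {e : Module.End W.K (W.H A)}
  (he1 : ∀ l, Lt S (2 * A.dim) l → Bal Q l → ∀ x ∈ HL F (W.gr A 1) l, e x = x)
  (he0 : ∀ l, Lt S (2 * A.dim) l → ¬ Bal Q l → ∀ x ∈ HL F (W.gr A 1) l, e x = 0)

include he1 he0

lemma e_idem : e * e = e := by
  refine h.ext_HL fun l hl x hx => ?_
  rw [Module.End.mul_apply]
  by_cases hb : Bal Q l
  · rw [he1 l hl hb x hx, he1 l hl hb x hx]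
  · rw [he0 l hl hb x hx, map_zero]

open Classical in
/-- The complement of the projector has only eigenvalues of even degree. -/
theorem isSplit_e [IsAlgClosed W.K] :
    IsSplit 2 (Ψ.toLinearMap * (1 - e)) (1 - e) := by
  have hid := h.e_idem he1 he0
  have hR : (1 - e) * (1 - e) = 1 - e := by
    rw [mul_sub, sub_mul, sub_mul, one_mul, mul_one, hid]; simp
  have hcomm : Ψ.toLinearMap * e = e * Ψ.toLinearMap := by
    refine h.ext_HL fun l hl x hx => ?_
    have hΨ : Ψ.toLinearMap x = tr c l • x := h.psi_HL x hx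
    rw [Module.End.mul_apply, Module.End.mul_apply, hΨ, map_smul]
    by_cases hb : Bal Q l
    · rw [he1 l hl hb x hx, hΨ]
    · rw [he0 l hl hb x hx, map_zero, smul_zero]
  have hcomm' : Ψ.toLinearMap * (1 - e) = (1 - e) * Ψ.toLinearMap := by
    rw [mul_sub, sub_mul, mul_one, one_mul, hcomm]
  refine ⟨hR, ?_, ?_, ⟨X, ?_, ?_⟩⟩
  · rw [mul_assoc, hR, hcomm', ← mul_assoc, hR]
  · refine ⟨∏ a ∈ ((finite_lists S (2 * A.dim)).toFinset.filter fun l => ¬ Bal Q l).image (tr c),
      (X - C a), ?_, ?_⟩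
    · intro α hα
      rw [eval_prod, Finset.prod_eq_zero_iff] at hα
      obtain ⟨a, ha, h0⟩ := hα
      rw [eval_sub, eval_X, eval_C] at h0
      rw [sub_eq_zero.1 h0]
      obtain ⟨l, hl, rfl⟩ := Finset.mem_image.1 ha
      rw [Finset.mem_filter, Set.Finite.mem_toFinset] at hl
      by_contra hodd
      exact hl.2 (h.wset.bal_of_odd h.gen hl.1.2 hl.1.1 hodd)
    · refine h.ext_HL fun l hl x hx => ?_
      rw [Module.End.mul_apply, LinearMap.sub_apply, Module.End.one_apply, LinearMap.zero_apply]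
      by_cases hb : Bal Q l
      · rw [he1 l hl hb x hx, sub_self, map_zero]
      · rw [he0 l hl hb x hx, sub_zero]
        have hx' : (Ψ.toLinearMap * (1 - e)) x = tr c l • x := by
          rw [Module.End.mul_apply, LinearMap.sub_apply, Module.End.one_apply,
            he0 l hl hb x hx, sub_zero]
          exact h.psi_HL x hx
        rw [aeval_apply_eig hx', eval_prod, Finset.prod_eq_zero (i := tr c l), zero_smul]
        · refine Finset.mem_image.2 ⟨l, ?_, rfl⟩
          rw [Finset.mem_filter, Set.Finite.mem_toFinset]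
          exact ⟨hl, hb⟩
        · rw [eval_sub, eval_X, eval_C, sub_self]
  · intro α hα
    rw [eval_X] at hα
    subst hα
    rw [qdeg, minpoly.zero, natDegree_X]
    decide
  · rw [aeval_X, sub_sub_cancel, mul_assoc, sub_mul, one_mul, hid, sub_self, mul_zero]

omit h he0 in
lemma e_BB {i : ℕ} {x : W.H A} (hx : x ∈ BB W A F S Q i) : e x = x := by
  by_cases hi : i ≤ 2 * A.dim
  · exact BB_ind (P := fun x => e x = x)
      (fun l hl hb x hx => he1 l ⟨hl.1.le.trans hi, hl.2⟩ hb x hx) (map_zero _)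
      (fun x y hx hy => by rw [map_add, hx, hy]) hx
  · have h1 := BB_gr _ hx
    rw [W.gr_eq_bot A i (by omega), Submodule.mem_bot] at h1
    rw [h1, map_zero]

lemma e_mem {i : ℕ} {x : W.H A} (hx : x ∈ W.gr A i) : e x ∈ BB W A F S Q i := by
  by_cases hi : i ≤ 2 * A.dim
  · refine h.gr_ind (P := fun x => e x ∈ BB W A F S Q i) ?_ ?_ ?_ hx
    · intro l hl x hx
      by_cases hb : Bal Q l
      · rw [he1 l ⟨hl.1.le.trans hi, hl.2⟩ hb x hx, ← hl.1]
        exact HL_le_BB hl.2 hb hx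
      · rw [he0 l ⟨hl.1.le.trans hi, hl.2⟩ hb x hx]
        exact Submodule.zero_mem _
    · rw [map_zero]; exact Submodule.zero_mem _
    · intro x y hx hy
      rw [map_add]; exact Submodule.add_mem _ hx hy
  · rw [W.gr_eq_bot A i (by omega), Submodule.mem_bot] at hx
    rw [hx, map_zero]
    exact Submodule.zero_mem _

/-- The projector is self-adjoint. -/
theorem e_adj (a b : W.H A) : W.tr A (e a * b) = W.tr A (a * e b) := by
  refine h.ind (P := fun a => W.tr A (e a * b) = W.tr A (a * e b)) ?_ ?_ ?_ a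
  · intro l hl a ha
    refine h.ind (P := fun b => W.tr A (e a * b) = W.tr A (a * e b)) ?_ ?_ ?_ b
    · intro l' hl' b hb
      have key : ¬ (Bal Q l ↔ Bal Q l') → W.tr A (a * b) = 0 := by
        intro hne
        by_contra h0
        have h1 := h.bal_of_tr (l := l ++ l') (by
          intro a ha
          rcases List.mem_append.1 ha with ha | ha
          · exact hl.2 a ha
          · exact hl'.2 a ha) (x := a * b) (by
            rw [HL_append]; exact Submodule.mul_mem_mul ha hb) h0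
        exact hne ⟨fun h2 => Bal.cancel' h1 h2, fun h2 => Ab.Bal.cancel h1 h2⟩
      by_cases hb1 : Bal Q l
      · by_cases hb2 : Bal Q l'
        · rw [he1 l hl hb1 a ha, he1 l' hl' hb2 b hb]
        · rw [he1 l hl hb1 a ha, he0 l' hl' hb2 b hb, mul_zero, map_zero,
            key (by simp [hb1, hb2])]
      · by_cases hb2 : Bal Q l'
        · rw [he0 l hl hb1 a ha, he1 l' hl' hb2 b hb, zero_mul, map_zero,
            key (by simp [hb1, hb2])]
        · rw [he0 l hl hb1 a ha, he0 l' hl' hb2 b hb, zero_mul, mul_zero]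
    · rw [map_zero, mul_zero, mul_zero]
    · intro x y hx hy
      rw [map_add, mul_add, mul_add, map_add, map_add, hx, hy]
  · rw [map_zero, zero_mul, zero_mul]
  · intro x y hx hy
    rw [map_add, add_mul, add_mul, map_add, map_add, hx, hy]

end E

end AbData

end Pool.Agent.N181.Ab
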